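import Mathlib

/-!
MP_8f87b2_co, base: the total area of the Dyck words of semilength `k` is `4 ^ k - (2 k + 1) catalan k`; the sum of the
positions of the up steps. Dyck words are binary trees, `A △ B` is the word `1 A 0 B`.
-/

namespace Pool.OddHC

open Finset BinaryTree

/-- area (sum of the heights of the lattice points) of the word -/
def Ar : BinaryTree Unit → ℕ
  | .nil => 0
  | .node _ A B => Ar A + (2 * A.numNodes + 1) + Ar B

/-- sum of the positions (`1, ..., 2k`) of the up steps of the word -/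
def Ps : BinaryTree Unit → ℕ
  | .nil => 0
  | .node _ A B => 1 + (Ps A + A.numNodes) + (Ps B + B.numNodes * (2 * A.numNodes + 2))

theorem two_Ps (t : BinaryTree Unit) : 2 * Ps t + Ar t = t.numNodes * (2 * t.numNodes + 1) := by
  induction t with
  | nil => rfl
  | node _ A B ihA ihB =>
    simp only [Ps, Ar, BinaryTree.numNodes]
    have e : 2 * (1 + (Ps A + A.numNodes) + (Ps B + B.numNodes * (2 * A.numNodes + 2))) +
        (Ar A + (2 * A.numNodes + 1) + Ar B) =
        (2 * Ps A + Ar A) + (2 * Ps B + Ar B) +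
          (3 + 4 * A.numNodes + 2 * B.numNodes * (2 * A.numNodes + 2)) := by ring
    rw [e, ihA, ihB]
    ring

theorem sum_succ {M : Type*} [AddCommMonoid M] (f : BinaryTree Unit → M) (n : ℕ) :
    ∑ t ∈ treesOfNumNodesEq (n + 1), f t =
      ∑ ij ∈ antidiagonal n, ∑ A ∈ treesOfNumNodesEq ij.1, ∑ B ∈ treesOfNumNodesEq ij.2,
        f (A △ B) := by
  rw [treesOfNumNodesEq_succ, sum_biUnion]
  · apply sum_congr rfl
    rintro ⟨i, j⟩ _
    rw [sum_map, sum_product]
    rfl
  · intro x _ y _ hxy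
    rw [Function.onFun, disjoint_left]
    intro t ht ht'
    simp only [mem_map, mem_product, mem_treesOfNumNodesEq, Function.Embedding.coeFn_mk] at ht ht'
    obtain ⟨⟨a, b⟩, ⟨h1, h2⟩, rfl⟩ := ht
    obtain ⟨⟨a', b'⟩, ⟨h1', h2'⟩, h3⟩ := ht'
    simp only [BinaryTree.node.injEq, true_and] at h3
    apply hxy
    apply Prod.ext
    · rw [← h1, ← h1', h3.1]
    · rw [← h2, ← h2', h3.2]

theorem cat_rec (n : ℕ) : (n + 3) * catalan (n + 2) = (4 * n + 6) * catalan (n + 1) := by
  have h1 := Nat.succ_mul_centralBinom_succ (n + 1)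
  have h2 := succ_mul_catalan_eq_centralBinom (n + 2)
  have h3 := succ_mul_catalan_eq_centralBinom (n + 1)
  rw [← h2, ← h3] at h1
  have h4 : (n + 2) * ((n + 3) * catalan (n + 2)) =
      (n + 2) * ((4 * n + 6) * catalan (n + 1)) := by
    have e1 : (n + 2) * ((n + 3) * catalan (n + 2)) =
      (n + 1 + 1) * ((n + 2 + 1) * catalan (n + 1 + 1)) := by ring
    rw [e1]
    have e2 : (n + 1 + 1) * ((n + 2 + 1) * catalan (n + 1 + 1)) =
      2 * (2 * (n + 1) + 1) * ((n + 1 + 1) * catalan (n + 1)) := h1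
    rw [e2]
    ring
  exact Nat.eq_of_mul_eq_mul_left (by omega) h4

theorem four_cat (n : ℕ) : 2 * ∑ ij ∈ antidiagonal n, 4 ^ ij.1 * catalan ij.2 +
    (n + 2) * catalan (n + 1) = 4 ^ (n + 1) := by
  induction n with
  | zero => simp
  | succ n ih =>
    rw [Finset.Nat.sum_antidiagonal_succ]
    have e1 : ∑ p ∈ antidiagonal n, 4 ^ (p.1 + 1) * catalan p.2 =
        4 * ∑ p ∈ antidiagonal n, 4 ^ p.1 * catalan p.2 := by
      rw [mul_sum]
      apply sum_congr rfl
      intro p _
      ring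
    simp only
    rw [e1]
    have h1 := cat_rec n
    have h2 : (n + 1 + 2) * catalan (n + 1 + 1) = (4 * n + 6) * catalan (n + 1) := h1
    rw [h2, pow_zero, one_mul, pow_succ 4 (n + 1), ← ih]
    ring

theorem sum_odd_cat (n : ℕ) : ∑ ij ∈ antidiagonal n, (2 * ij.2 + 1) * (catalan ij.1 * catalan ij.2) =
    (n + 1) * catalan (n + 1) := by
  have h1 : ∑ ij ∈ antidiagonal n, (2 * ij.2 + 1) * (catalan ij.1 * catalan ij.2) =
      ∑ ij ∈ antidiagonal n, (2 * ij.1 + 1) * (catalan ij.1 * catalan ij.2) := by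
    rw [← Finset.Nat.sum_antidiagonal_swap]
    apply sum_congr rfl
    intro p _
    simp only [Prod.fst_swap, Prod.snd_swap]
    ring
  have h2 : 2 * ∑ ij ∈ antidiagonal n, (2 * ij.2 + 1) * (catalan ij.1 * catalan ij.2) =
      2 * ((n + 1) * catalan (n + 1)) := by
    rw [two_mul]
    nth_rewrite 2 [h1]
    rw [← sum_add_distrib, catalan_succ', mul_sum, mul_sum]
    apply sum_congr rfl
    intro p hp
    rw [HasAntidiagonal.mem_antidiagonal] at hp
    rw [← hp]
    ring
  omega

theorem sum_Ar (n : ℕ) : ∑ t ∈ treesOfNumNodesEq n, Ar t + (2 * n + 1) * catalan n = 4 ^ n := by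
  induction n using Nat.strong_induction_on with
  | _ n ih =>
    rcases n with _ | n
    · simp [Ar]
    · rw [sum_succ]
      have h1 : ∀ ij ∈ antidiagonal n, ∑ A ∈ treesOfNumNodesEq ij.1,
          ∑ B ∈ treesOfNumNodesEq ij.2, Ar (A △ B) + (2 * ij.2 + 1) * (catalan ij.1 * catalan ij.2) =
          4 ^ ij.1 * catalan ij.2 + 4 ^ ij.2 * catalan ij.1 := by
        rintro ⟨i, j⟩ hij
        rw [HasAntidiagonal.mem_antidiagonal] at hij
        simp only at hij ⊢
        have h2 : ∑ A ∈ treesOfNumNodesEq i, ∑ B ∈ treesOfNumNodesEq j, Ar (A △ B) =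
            (∑ A ∈ treesOfNumNodesEq i, Ar A) * catalan j +
              (2 * i + 1) * (catalan i * catalan j) +
              catalan i * ∑ B ∈ treesOfNumNodesEq j, Ar B := by
          have h3 : ∀ A ∈ treesOfNumNodesEq i, ∑ B ∈ treesOfNumNodesEq j, Ar (A △ B) =
              Ar A * catalan j + (2 * i + 1) * catalan j + ∑ B ∈ treesOfNumNodesEq j, Ar B := by
            intro A hA
            rw [mem_treesOfNumNodesEq] at hA
            have h4 : ∀ B ∈ treesOfNumNodesEq j, Ar (A △ B) = (Ar A + (2 * i + 1)) + Ar B := by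
              intro B _
              simp only [Ar, hA]
            rw [sum_congr rfl h4, sum_add_distrib, sum_const, treesOfNumNodesEq_card_eq_catalan,
              smul_eq_mul]
            ring
          rw [sum_congr rfl h3, sum_add_distrib, sum_add_distrib, ← sum_mul, sum_const, sum_const,
            treesOfNumNodesEq_card_eq_catalan, smul_eq_mul, smul_eq_mul]
          ring
        have h5 := ih i (by omega)
        have h6 := ih j (by omega)
        rw [h2, ← h5, ← h6]
        ring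
      have h7 := sum_congr rfl h1
      rw [sum_add_distrib, sum_odd_cat, sum_add_distrib] at h7
      have h8 : ∑ ij ∈ antidiagonal n, 4 ^ ij.2 * catalan ij.1 =
          ∑ ij ∈ antidiagonal n, 4 ^ ij.1 * catalan ij.2 := by
        rw [← Finset.Nat.sum_antidiagonal_swap]
        apply sum_congr rfl
        intro p _
        rfl
      rw [h8] at h7
      have h9 := four_cat n
      have h10 : (2 * (n + 1) + 1) * catalan (n + 1) =
          (n + 1) * catalan (n + 1) + (n + 2) * catalan (n + 1) := by ring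
      rw [h10, ← h9]
      omega

/-- four times the sum of the positions is `- 2 ^ (2 k + 1)` modulo `2 k + 1` -/
theorem sum_Ps (k : ℕ) :
    ((4 * ∑ t ∈ treesOfNumNodesEq k, Ps t : ℕ) : ZMod (2 * k + 1)) = -(2 : ZMod (2 * k + 1)) ^ (2 * k + 1) := by
  have h0 : ((2 * k + 1 : ℕ) : ZMod (2 * k + 1)) = 0 := ZMod.natCast_self _
  have h1 : 2 * ∑ t ∈ treesOfNumNodesEq k, Ps t + ∑ t ∈ treesOfNumNodesEq k, Ar t =
      catalan k * (k * (2 * k + 1)) := by
    rw [mul_sum, ← sum_add_distrib]
    have h2 : ∀ t ∈ treesOfNumNodesEq k, 2 * Ps t + Ar t = k * (2 * k + 1) := by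
      intro t ht
      rw [mem_treesOfNumNodesEq] at ht
      rw [two_Ps, ht]
    rw [sum_congr rfl h2, sum_const, treesOfNumNodesEq_card_eq_catalan, smul_eq_mul]
  have h3 := sum_Ar k
  have h4 : 4 * ∑ t ∈ treesOfNumNodesEq k, Ps t + 2 * 4 ^ k =
      (2 * k + 1) * (2 * catalan k * k + 2 * catalan k) := by
    rw [← h3]
    have h5 : 4 * ∑ t ∈ treesOfNumNodesEq k, Ps t +
        2 * (∑ t ∈ treesOfNumNodesEq k, Ar t + (2 * k + 1) * catalan k) =
        2 * (2 * ∑ t ∈ treesOfNumNodesEq k, Ps t + ∑ t ∈ treesOfNumNodesEq k, Ar t) +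
          2 * ((2 * k + 1) * catalan k) := by ring
    rw [h5, h1]
    ring
  have h6 := congrArg (fun x : ℕ => (x : ZMod (2 * k + 1))) h4
  simp only [Nat.cast_add, Nat.cast_mul] at h6
  have h7 : ((2 : ℕ) : ZMod (2 * k + 1)) * (k : ZMod (2 * k + 1)) + ((1 : ℕ) : ZMod (2 * k + 1)) = 0 := by
    rw [← h0]
    push_cast
    ring
  rw [h7, zero_mul] at h6
  have h8 : ((4 * ∑ t ∈ treesOfNumNodesEq k, Ps t : ℕ) : ZMod (2 * k + 1)) =
      -(((2 : ℕ) : ZMod (2 * k + 1)) * ((4 ^ k : ℕ) : ZMod (2 * k + 1))) := by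
    rw [Nat.cast_mul]
    exact eq_neg_of_add_eq_zero_left h6
  rw [h8]
  push_cast
  rw [pow_succ, pow_mul]
  norm_num
  ring

end Pool.OddHC
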