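import Pool.Agent.Work.MP_8f87b2_base.Frame
import Pool.Agent.Work.MP_8f87b2_h35.Abs

/-!
MP_8f87b2_co, base: legality of all directed gadgets. `legal_of_list`: a permutation of finitely many words along allowed
images (with star positions in common frames) is legal; the block `[A0;A1,A2,A3,A4]` with ten words and arbitrary arcs;
the conclusion of the absorber engine gives a legal permutation.
-/

namespace Pool.OddHC

open Finset BinaryTree Equiv

variable {k : ℕ}

theorem frame_Le {w u : X k} {A' B' : List Bool} (hu : wd u.1 = B' ++ A')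
    (h : leL (false :: wd w.1) (A' ++ true :: B')) :
    Le w u ((A'.length : ℕ) : ZMod (2 * k + 1)) := by
  have h1 : wd w.1 = wd w.1 ++ [] := by simp
  have := frame_le (w := w) (u := u) (A := []) (B := wd w.1) h1 hu h
  simp only [List.length_nil, Nat.cast_zero] at this
  exact this

/-- LEGALITY: a permutation of the words `w i`, `i < N`, along allowed images -/
theorem legal_of_list {N : ℕ} (w : ℕ → X k) (s : ℕ → ZMod (2 * k + 1)) (al : ℕ → ℕ → Prop)
    (inj : ∀ i < N, ∀ j < N, w i = w j → i = j)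
    (hal : ∀ i < N, ∀ j < N, al i j → io (w i) (s i) ⊆ insert (s j) (io (w j) (s j)))
    (π : Perm (X k)) (hout : ∀ x, (∀ i < N, w i ≠ x) → π x = x)
    (hin : ∀ i < N, ∃ j < N, al i j ∧ π (w i) = w j) :
    ∃ z : X k → ZMod (2 * k + 1), (∀ x, (∀ i < N, w i ≠ x) → z x = 0) ∧ Legal π z := by
  classical
  obtain ⟨σ, hσd⟩ : ∃ σ : X k → ZMod (2 * k + 1),
    σ = fun x => if h : ∃ i, i < N ∧ w i = x then s h.choose else 0 := ⟨_, rfl⟩
  have hσ : ∀ i < N, σ (w i) = s i := by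
    intro i hi
    have h : ∃ i', i' < N ∧ w i' = w i := ⟨i, hi, rfl⟩
    rw [hσd]
    simp only
    rw [dif_pos h, inj _ h.choose_spec.1 i hi h.choose_spec.2]
  refine ⟨fun x => σ (π x) - σ x, ?_, ?_⟩
  · intro x hx
    simp only
    rw [hout x hx, sub_self]
  · apply legal_of_frame (B := (range N).image w)
    · intro x hx
      apply hout
      intro i hi he
      exact hx (mem_image.2 ⟨i, mem_range.2 hi, he⟩)
    · intro x hx
      obtain ⟨i, hi, rfl⟩ := mem_image.1 hx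
      rw [mem_range] at hi
      obtain ⟨j, hj, ha, he⟩ := hin i hi
      rw [he, hσ i hi, hσ j hj]
      exact hal i hi j hj ha

/-- from relative to absolute star positions -/
theorem abs_of_Le {x y : X k} {si sj z : ℕ} (h : Le x y ((z : ℕ) : ZMod (2 * k + 1)))
    (hz : si + z = sj ∨ si + z = sj + (2 * k + 1)) (c : ZMod (2 * k + 1)) :
    io x (c + (si : ℕ)) ⊆ insert (c + (sj : ℕ)) (io y (c + (sj : ℕ))) := by
  have h1 := h.shift (c + (si : ℕ))
  have h2 : c + ((si : ℕ) : ZMod (2 * k + 1)) + ((z : ℕ) : ZMod (2 * k + 1)) = c + (sj : ℕ) := by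
    rw [add_assoc, ← Nat.cast_add]
    congr 1
    rcases hz with hz | hz
    · rw [hz]
    · rw [hz, Nat.cast_add, ZMod.natCast_self, add_zero]
  rw [h2] at h1
  exact h1

/-! ### The block with five arcs -/

/-- the ten words of the block; order of the patterns 11000, 10100, 10010, 10001, 01100, 01010, 01001, 00110, 00101, 00011
of the marks before `A0, A1, A2, A3, A4` -/
def bw (A0 A1 A2 A3 A4 : BinaryTree Unit) : ℕ → BinaryTree Unit
  | 0 => w1 A4 (w1 A0 A1 A2) A3
  | 1 => w1 A4 A0 (w1 A1 A2 A3)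
  | 2 => w1 A2 A3 (w1 A4 A0 A1)
  | 3 => w1 A3 (w1 A4 A0 A1) A2
  | 4 => w1 A0 (w1 A1 A2 A3) A4
  | 5 => w1 A0 A1 (w1 A2 A3 A4)
  | 6 => w1 A3 A4 (w1 A0 A1 A2)
  | 7 => w1 A1 (w1 A2 A3 A4) A0
  | 8 => w1 A1 A2 (w1 A3 A4 A0)
  | _ => w1 A2 (w1 A3 A4 A0) A1

/-- the star positions; `n_i` = size of `A_i` -/
def bs (n0 n1 n2 n3 : ℕ) : ℕ → ℕ
  | 0 => 2 * (n0 + n1 + n2 + n3) + 4
  | 1 => 2 * (n0 + n1 + n2 + n3) + 4
  | 2 => 2 * (n0 + n1) + 2
  | 3 => 2 * (n0 + n1 + n2) + 3
  | 4 => 0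
  | 5 => 0
  | 6 => 2 * (n0 + n1 + n2) + 3
  | 7 => 2 * n0 + 1
  | 8 => 2 * n0 + 1
  | _ => 2 * (n0 + n1) + 2

/-- the masks of the allowed images in the block -/
def bal : List ℕ := [49, 22, 44, 11, 400, 224, 321, 644, 770, 584]

theorem mvI (A0 A1 A2 A3 A4 : BinaryTree Unit) {w u : X k}
    (hw : w.1 = w1 A4 (w1 A0 A1 A2) A3) (hu : u.1 = w1 A0 (w1 A1 A2 A3) A4) :
    Le w u ((2 * A4.numNodes + 1 : ℕ) : ZMod (2 * k + 1)) := by
  have h1 : wd u.1 = (wd A0 ++ true :: (wd A1 ++ true :: (wd A2 ++ false :: wd A3))) ++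
      (false :: wd A4) := by
    rw [hu]
    simp [wd_w1]
  have h2 := frame_Le (w := w) h1 (by
    rw [hw]
    simp only [wd_w1, List.cons_append, List.append_assoc]
    apply leL_cons (by simp)
    apply leL_app (leL_refl _)
    apply leL_cons (by simp)
    apply leL_app (leL_refl _)
    apply leL_cons (by simp)
    apply leL_app (leL_refl _)
    apply leL_cons (by simp)
    apply leL_app (leL_refl _)
    exact leL_refl _)
  rw [List.length_cons, wd_length] at h2
  exact h2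

theorem mvJ (A0 A1 A2 A3 A4 : BinaryTree Unit) {w u : X k}
    (hw : w.1 = w1 A4 (w1 A0 A1 A2) A3) (hu : u.1 = w1 A0 A1 (w1 A2 A3 A4)) :
    Le w u ((2 * A4.numNodes + 1 : ℕ) : ZMod (2 * k + 1)) := by
  have h1 : wd u.1 = (wd A0 ++ true :: (wd A1 ++ false :: (wd A2 ++ true :: wd A3))) ++
      (false :: wd A4) := by
    rw [hu]
    simp [wd_w1]
  have h2 := frame_Le (w := w) h1 (by
    rw [hw]
    simp only [wd_w1, List.cons_append, List.append_assoc]
    apply leL_cons (by simp)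
    apply leL_app (leL_refl _)
    apply leL_cons (by simp)
    apply leL_app (leL_refl _)
    apply leL_cons (by simp)
    apply leL_app (leL_refl _)
    apply leL_cons (by simp)
    apply leL_app (leL_refl _)
    apply leL_cons (by simp)
    exact leL_refl _)
  rw [List.length_cons, wd_length] at h2
  exact h2

theorem mvK (A0 A1 A2 A3 A4 : BinaryTree Unit) {w u : X k}
    (hw : w.1 = w1 A4 A0 (w1 A1 A2 A3)) (hu : u.1 = w1 A0 (w1 A1 A2 A3) A4) :
    Le w u ((2 * A4.numNodes + 1 : ℕ) : ZMod (2 * k + 1)) := by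
  have h1 : wd u.1 = (wd A0 ++ true :: (wd A1 ++ true :: (wd A2 ++ false :: wd A3))) ++
      (false :: wd A4) := by
    rw [hu]
    simp [wd_w1]
  have h2 := frame_Le (w := w) h1 (by
    rw [hw]
    simp only [wd_w1, List.cons_append, List.append_assoc]
    apply leL_cons (by simp)
    apply leL_app (leL_refl _)
    apply leL_cons (by simp)
    apply leL_app (leL_refl _)
    apply leL_cons (by simp)
    apply leL_app (leL_refl _)
    apply leL_cons (by simp)
    exact leL_refl _)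
  rw [List.length_cons, wd_length] at h2
  exact h2

theorem mvL (A0 A1 A2 A3 A4 : BinaryTree Unit) {w u : X k}
    (hw : w.1 = w1 A4 A0 (w1 A1 A2 A3)) (hu : u.1 = w1 A2 A3 (w1 A4 A0 A1)) :
    Le w u ((2 * (A4.numNodes + A0.numNodes + A1.numNodes) + 3 : ℕ) : ZMod (2 * k + 1)) := by
  have h1 : wd u.1 = (wd A2 ++ true :: wd A3) ++
      (false :: (wd A4 ++ true :: (wd A0 ++ false :: wd A1))) := by
    rw [hu]
    simp [wd_w1]
  have h2 := frame_Le (w := w) h1 (by
    rw [hw]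
    simp only [wd_w1, List.cons_append, List.append_assoc]
    apply leL_cons (by simp)
    apply leL_app (leL_refl _)
    apply leL_cons (by simp)
    apply leL_app (leL_refl _)
    apply leL_cons (by simp)
    apply leL_app (leL_refl _)
    apply leL_cons (by simp)
    apply leL_app (leL_refl _)
    apply leL_cons (by simp)
    exact leL_refl _)
  have h3 : (false :: (wd A4 ++ true :: (wd A0 ++ false :: wd A1))).length =
      2 * (A4.numNodes + A0.numNodes + A1.numNodes) + 3 := by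
    simp only [List.length_cons, List.length_append, wd_length]
    ring
  rw [h3] at h2
  exact h2

theorem bal_cases' : ∀ i j : Fin 10, Abs.bit (bal.getD i.1 0) j.1 = true →
    i.1 = j.1 ∨ (i.1, j.1) ∈ [(0, 4), (0, 5), (1, 4), (1, 2), (2, 3), (2, 5), (3, 0), (3, 1),
      (4, 7), (4, 8), (5, 7), (5, 6), (6, 0), (6, 8), (7, 9), (7, 2), (8, 9), (8, 1), (9, 3),
      (9, 6)] := by
  decide

theorem bal_cases (i : ℕ) (hi : i < 10) (j : ℕ) (hj : j < 10)
    (h : Abs.bit (bal.getD i 0) j = true) :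
    i = j ∨ (i, j) ∈ [(0, 4), (0, 5), (1, 4), (1, 2), (2, 3), (2, 5), (3, 0), (3, 1), (4, 7),
      (4, 8), (5, 7), (5, 6), (6, 0), (6, 8), (7, 9), (7, 2), (8, 9), (8, 1), (9, 3), (9, 6)] :=
  bal_cases' ⟨i, hi⟩ ⟨j, hj⟩ h

/-- THE MOVES OF THE BLOCK are allowed -/
theorem block_al (A0 A1 A2 A3 A4 : BinaryTree Unit)
    (hk : A0.numNodes + A1.numNodes + A2.numNodes + A3.numNodes + A4.numNodes + 2 = k)
    {x y : X k} {i j : ℕ} (hi : i < 10) (hj : j < 10) (hx : x.1 = bw A0 A1 A2 A3 A4 i)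
    (hy : y.1 = bw A0 A1 A2 A3 A4 j) (h : Abs.bit (bal.getD i 0) j = true)
    (c : ZMod (2 * k + 1)) :
    io x (c + (bs A0.numNodes A1.numNodes A2.numNodes A3.numNodes i : ℕ)) ⊆
      insert (c + (bs A0.numNodes A1.numNodes A2.numNodes A3.numNodes j : ℕ))
        (io y (c + (bs A0.numNodes A1.numNodes A2.numNodes A3.numNodes j : ℕ))) := by
  rcases bal_cases i hi j hj h with rfl | h
  · have : x = y := Subtype.ext (by rw [hx, hy])
    rw [this]
    exact subset_insert _ _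
  · simp only [List.mem_cons, Prod.mk.injEq, List.not_mem_nil, or_false] at h
    rcases h with ⟨rfl, rfl⟩ | ⟨rfl, rfl⟩ | ⟨rfl, rfl⟩ | ⟨rfl, rfl⟩ | ⟨rfl, rfl⟩ | ⟨rfl, rfl⟩ |
      ⟨rfl, rfl⟩ | ⟨rfl, rfl⟩ | ⟨rfl, rfl⟩ | ⟨rfl, rfl⟩ | ⟨rfl, rfl⟩ | ⟨rfl, rfl⟩ | ⟨rfl, rfl⟩ |
      ⟨rfl, rfl⟩ | ⟨rfl, rfl⟩ | ⟨rfl, rfl⟩ | ⟨rfl, rfl⟩ | ⟨rfl, rfl⟩ | ⟨rfl, rfl⟩ | ⟨rfl, rfl⟩
    · exact abs_of_Le (mvI A0 A1 A2 A3 A4 hx hy) (by simp only [bs]; omega) c
    · exact abs_of_Le (mvJ A0 A1 A2 A3 A4 hx hy) (by simp only [bs]; omega) c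
    · exact abs_of_Le (mvK A0 A1 A2 A3 A4 hx hy) (by simp only [bs]; omega) c
    · exact abs_of_Le (mvL A0 A1 A2 A3 A4 hx hy) (by simp only [bs]; omega) c
    · exact abs_of_Le (mvK A3 A4 A0 A1 A2 hx hy) (by simp only [bs]; omega) c
    · exact abs_of_Le (mvL A3 A4 A0 A1 A2 hx hy) (by simp only [bs]; omega) c
    · exact abs_of_Le (mvI A4 A0 A1 A2 A3 hx hy) (by simp only [bs]; omega) c
    · exact abs_of_Le (mvJ A4 A0 A1 A2 A3 hx hy) (by simp only [bs]; omega) c
    · exact abs_of_Le (mvI A1 A2 A3 A4 A0 hx hy) (by simp only [bs]; omega) c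
    · exact abs_of_Le (mvJ A1 A2 A3 A4 A0 hx hy) (by simp only [bs]; omega) c
    · exact abs_of_Le (mvK A1 A2 A3 A4 A0 hx hy) (by simp only [bs]; omega) c
    · exact abs_of_Le (mvL A1 A2 A3 A4 A0 hx hy) (by simp only [bs]; omega) c
    · exact abs_of_Le (mvK A4 A0 A1 A2 A3 hx hy) (by simp only [bs]; omega) c
    · exact abs_of_Le (mvL A4 A0 A1 A2 A3 hx hy) (by simp only [bs]; omega) c
    · exact abs_of_Le (mvI A2 A3 A4 A0 A1 hx hy) (by simp only [bs]; omega) c
    · exact abs_of_Le (mvJ A2 A3 A4 A0 A1 hx hy) (by simp only [bs]; omega) c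
    · exact abs_of_Le (mvK A2 A3 A4 A0 A1 hx hy) (by simp only [bs]; omega) c
    · exact abs_of_Le (mvL A2 A3 A4 A0 A1 hx hy) (by simp only [bs]; omega) c
    · exact abs_of_Le (mvI A3 A4 A0 A1 A2 hx hy) (by simp only [bs]; omega) c
    · exact abs_of_Le (mvJ A3 A4 A0 A1 A2 hx hy) (by simp only [bs]; omega) c

/-! ### The triple -/

/-- the three words of a triple: `P(Q)R`, `Q(R)P`, `R(P)Q` -/
def tw (P Q R : BinaryTree Unit) : ℕ → BinaryTree Unit
  | 0 => w1 P Q R
  | 1 => w1 Q R P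
  | _ => w1 R P Q

/-- star positions of the triple -/
def ts (p q : ℕ) : ℕ → ℕ
  | 0 => 0
  | 1 => 2 * p + 1
  | _ => 2 * (p + q) + 2

/-- masks of the allowed images in the triple -/
def tal : List ℕ := [3, 6, 5]

theorem move' {P Q R : BinaryTree Unit} {x y : X k} (hx : x.1 = w1 P Q R) (hy : y.1 = w1 Q R P) :
    Le x y ((2 * P.numNodes + 1 : ℕ) : ZMod (2 * k + 1)) := by
  have h1 : wd y.1 = (wd Q ++ true :: wd R) ++ (false :: wd P) := by
    rw [hy]
    simp [wd_w1]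
  have h2 := frame_Le (w := x) h1 (by
    rw [hx]
    simp only [wd_w1, List.cons_append]
    apply leL_cons (by simp)
    apply leL_app (leL_refl _)
    apply leL_cons (by simp)
    apply leL_app (leL_refl _)
    apply leL_cons (by simp)
    exact leL_refl _)
  rw [List.length_cons, wd_length] at h2
  exact h2

theorem tal_cases' : ∀ i j : Fin 3, Abs.bit (tal.getD i.1 0) j.1 = true →
    i.1 = j.1 ∨ (i.1, j.1) ∈ [(0, 1), (1, 2), (2, 0)] := by
  decide

theorem tal_cases (i : ℕ) (hi : i < 3) (j : ℕ) (hj : j < 3)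
    (h : Abs.bit (tal.getD i 0) j = true) : i = j ∨ (i, j) ∈ [(0, 1), (1, 2), (2, 0)] :=
  tal_cases' ⟨i, hi⟩ ⟨j, hj⟩ h

/-- THE MOVES OF THE TRIPLE are allowed -/
theorem triple_al (P Q R : BinaryTree Unit) (hk : P.numNodes + Q.numNodes + R.numNodes + 1 = k)
    {x y : X k} {i j : ℕ} (hi : i < 3) (hj : j < 3) (hx : x.1 = tw P Q R i)
    (hy : y.1 = tw P Q R j) (h : Abs.bit (tal.getD i 0) j = true) (c : ZMod (2 * k + 1)) :
    io x (c + (ts P.numNodes Q.numNodes i : ℕ)) ⊆ insert (c + (ts P.numNodes Q.numNodes j : ℕ))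
      (io y (c + (ts P.numNodes Q.numNodes j : ℕ))) := by
  rcases tal_cases i hi j hj h with rfl | h
  · have : x = y := Subtype.ext (by rw [hx, hy])
    rw [this]
    exact subset_insert _ _
  · simp only [List.mem_cons, Prod.mk.injEq, List.not_mem_nil, or_false] at h
    rcases h with ⟨rfl, rfl⟩ | ⟨rfl, rfl⟩ | ⟨rfl, rfl⟩
    · exact abs_of_Le (move' (P := P) (Q := Q) (R := R) hx hy) (by simp only [ts]; omega) c
    · exact abs_of_Le (move' (P := Q) (Q := R) (R := P) hx hy) (by simp only [ts]; omega) c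
    · exact abs_of_Le (move' (P := R) (Q := P) (R := Q) hx hy) (by simp only [ts]; omega) c

/-! ### The conclusion of the engine gives legal permutations -/

theorem legal_of_concl {f : Perm (X k)} {w : ℕ → X k} {al : List ℕ} (s : ℕ → ZMod (2 * k + 1))
    (inj : ∀ i < al.length, ∀ j < al.length, w i = w j → i = j)
    (hal : ∀ i < al.length, ∀ j < al.length, Abs.bit (al.getD i 0) j = true →
      io (w i) (s i) ⊆ insert (s j) (io (w j) (s j)))
    (h : Abs.Concl f w al) :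
    ∃ (π : Perm (X k)) (z : X k → ZMod (2 * k + 1)), Legal π z ∧
      (∀ x, (∀ i < al.length, w i ≠ x) → π x = x) ∧
      (∀ x, (∀ i < al.length, w i ≠ x) → z x = 0) ∧
      (∀ x y, f.SameCycle x y → (f * π).SameCycle x y) ∧
      ∀ i < al.length, ∀ j < al.length, (f * π).SameCycle (w i) (w j) := by
  obtain ⟨π, h1, h2, h3, h4⟩ := h
  obtain ⟨z, hz, hl⟩ := legal_of_list w s (fun i j => Abs.bit (al.getD i 0) j = true) inj hal π h1 h2
  exact ⟨π, z, hl, h1, hz, h3, h4⟩

end Pool.OddHC
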