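import Mathlib

/-!
MP_8f87b2_co, base: the number of cycles of a permutation which meet a set, transpositions, parity.
-/

namespace Pool.OddHC

open Finset Equiv

variable {W : Type*} [Fintype W] [DecidableEq W]

open Classical in
/-- the cycle of `w` -/
noncomputable def orb (f : Perm W) (w : W) : Finset W := univ.filter (fun v => f.SameCycle w v)

/-- the number of the cycles which meet `A` -/
noncomputable def cy (f : Perm W) (A : Finset W) : ℕ := (A.image (orb f)).card

/-- the number of the cycles which meet `B` and do not meet `A` -/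
noncomputable def cyx (f : Perm W) (B A : Finset W) : ℕ :=
  ((B.image (orb f)) \ (A.image (orb f))).card

theorem mem_orb {f : Perm W} {w v : W} : v ∈ orb f w ↔ f.SameCycle w v := by
  classical
  unfold orb
  simp

theorem self_mem_orb (f : Perm W) (w : W) : w ∈ orb f w :=
  mem_orb.2 (Perm.SameCycle.refl f w)

theorem orb_eq_iff {f : Perm W} {w v : W} : orb f w = orb f v ↔ f.SameCycle w v := by
  constructor
  · intro h
    have := self_mem_orb f v
    rw [← h] at this
    exact mem_orb.1 this
  · intro h
    ext x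
    rw [mem_orb, mem_orb]
    exact ⟨fun hx => h.symm.trans hx, fun hx => h.trans hx⟩

omit [DecidableEq W] in
theorem same_nat {f : Perm W} {w v : W} (h : f.SameCycle w v) : ∃ n : ℕ, (f ^ n) w = v := by
  obtain ⟨i, _, hi⟩ := h.exists_pow_eq'
  exact ⟨i, hi⟩

omit [Fintype W] [DecidableEq W] in
theorem nat_same {f : Perm W} {w v : W} (n : ℕ) (h : (f ^ n) w = v) : f.SameCycle w v :=
  ⟨(n : ℤ), by rw [zpow_natCast]; exact h⟩

omit [Fintype W] [DecidableEq W] in
theorem pow_agree {f f' : Perm W} {w : W} (n : ℕ) (h : ∀ i < n, f' ((f ^ i) w) = f ((f ^ i) w)) :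
    (f' ^ n) w = (f ^ n) w := by
  induction n with
  | zero => rfl
  | succ n ih =>
    rw [pow_succ', pow_succ', Perm.mul_apply, Perm.mul_apply, ih (fun i hi => h i (by omega))]
    exact h n (by omega)

theorem orb_congr {f f' : Perm W} {w : W} (h : ∀ v ∈ orb f w, f' v = f v) :
    orb f' w = orb f w := by
  have hp : ∀ n : ℕ, (f' ^ n) w = (f ^ n) w := fun n =>
    pow_agree n (fun i _ => h _ (mem_orb.2 (nat_same i rfl)))
  ext x
  rw [mem_orb, mem_orb]
  constructor
  · intro hx
    obtain ⟨n, hn⟩ := same_nat hx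
    exact nat_same n (by rw [← hp]; exact hn)
  · intro hx
    obtain ⟨n, hn⟩ := same_nat hx
    exact nat_same n (by rw [hp]; exact hn)

/-- the orbits which do not meet `A` are unchanged -/
theorem orb_off {f f' : Perm W} {A : Finset W} (h : ∀ w, w ∉ A → f' w = f w) {w : W}
    (hw : orb f w ∉ A.image (orb f)) : orb f' w = orb f w := by
  apply orb_congr
  intro v hv
  apply h
  intro hA
  apply hw
  rw [mem_image]
  exact ⟨v, hA, (orb_eq_iff.2 (mem_orb.1 hv)).symm⟩

theorem off_off {f f' : Perm W} {A : Finset W} (h : ∀ w, w ∉ A → f' w = f w) {w : W}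
    (hw : orb f w ∉ A.image (orb f)) : orb f' w ∉ A.image (orb f') := by
  intro hm
  rw [mem_image] at hm
  obtain ⟨a, ha, he⟩ := hm
  apply hw
  rw [mem_image]
  refine ⟨a, ha, ?_⟩
  have h1 : a ∈ orb f' w := by
    rw [← he]; exact self_mem_orb f' a
  rw [orb_off h hw] at h1
  exact (orb_eq_iff.2 (mem_orb.1 h1)).symm

theorem cyx_congr {f f' : Perm W} {A : Finset W} (B : Finset W) (h : ∀ w, w ∉ A → f' w = f w) :
    cyx f' B A = cyx f B A := by
  unfold cyx
  congr 1
  have h' : ∀ w, w ∉ A → f w = f' w := fun w hw => (h w hw).symm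
  ext O
  rw [mem_sdiff, mem_sdiff]
  constructor
  · rintro ⟨hm, hn⟩
    obtain ⟨w, hw, rfl⟩ := mem_image.1 hm
    have h1 := orb_off h' hn
    have h2 := off_off h' hn
    rw [h1] at h2
    exact ⟨mem_image.2 ⟨w, hw, h1⟩, h2⟩
  · rintro ⟨hm, hn⟩
    obtain ⟨w, hw, rfl⟩ := mem_image.1 hm
    have h1 := orb_off h hn
    have h2 := off_off h hn
    rw [h1] at h2
    exact ⟨mem_image.2 ⟨w, hw, h1⟩, h2⟩

theorem cy_union (f : Perm W) (A B : Finset W) : cy f (A ∪ B) = cy f A + cyx f B A := by
  unfold cy cyx
  rw [image_union, ← union_sdiff_self_eq_union, card_union_of_disjoint disjoint_sdiff]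

theorem cy_mono (f : Perm W) {A B : Finset W} (h : A ⊆ B) : cy f A ≤ cy f B :=
  card_le_card (image_subset_image h)

theorem cy_univ (f : Perm W) (A : Finset W) : cy f univ = cy f A + cyx f univ A := by
  rw [← cy_union, Finset.union_eq_right.2 (subset_univ A)]

/-! ### Transpositions -/

omit [Fintype W] in
theorem swap_off {f : Perm W} {u v w : W} (hu : w ≠ u) (hv : w ≠ v) :
    (f * swap u v) w = f w := by
  rw [Perm.mul_apply, swap_apply_of_ne_of_ne hu hv]

/-- an element of a cycle through `u` is in the new cycle of `u` or of `v` -/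
theorem swap_reach {f : Perm W} {u v w : W} (h : f.SameCycle w u ∨ f.SameCycle w v) :
    (f * swap u v).SameCycle w u ∨ (f * swap u v).SameCycle w v := by
  classical
  have hex : ∃ n : ℕ, (f ^ n) w = u ∨ (f ^ n) w = v := by
    rcases h with h | h
    · obtain ⟨n, hn⟩ := same_nat h
      exact ⟨n, Or.inl hn⟩
    · obtain ⟨n, hn⟩ := same_nat h
      exact ⟨n, Or.inr hn⟩
  obtain ⟨n, hn, hmin⟩ : ∃ n : ℕ, ((f ^ n) w = u ∨ (f ^ n) w = v) ∧
      ∀ i < n, ¬ ((f ^ i) w = u ∨ (f ^ i) w = v) :=
    ⟨Nat.find hex, Nat.find_spec hex, fun i hi => Nat.find_min hex hi⟩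
  have h1 : ((f * swap u v) ^ n) w = (f ^ n) w := by
    apply pow_agree
    intro i hi
    have := hmin i hi
    rw [not_or] at this
    exact swap_off this.1 this.2
  rcases hn with hn | hn
  · exact Or.inl (nat_same n (by rw [h1, hn]))
  · exact Or.inr (nat_same n (by rw [h1, hn]))

/-- the first return of `u` to `{u, v}` -/
theorem swap_first (f : Perm W) (u v : W) : ∃ b : ℕ, 1 ≤ b ∧ ((f ^ b) u = u ∨ (f ^ b) u = v) ∧
    (∀ i, 1 ≤ i → i < b → (f ^ i) u ≠ u ∧ (f ^ i) u ≠ v) ∧
    ∀ i, 1 ≤ i → i ≤ b → ((f * swap u v) ^ i) v = (f ^ i) u := by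
  classical
  have hex : ∃ n : ℕ, 1 ≤ n ∧ ((f ^ n) u = u ∨ (f ^ n) u = v) := by
    refine ⟨orderOf f, orderOf_pos f, Or.inl ?_⟩
    rw [pow_orderOf_eq_one]
    rfl
  obtain ⟨b, hb, hmin⟩ : ∃ n : ℕ, (1 ≤ n ∧ ((f ^ n) u = u ∨ (f ^ n) u = v)) ∧
      ∀ i < n, ¬ (1 ≤ i ∧ ((f ^ i) u = u ∨ (f ^ i) u = v)) :=
    ⟨Nat.find hex, Nat.find_spec hex, fun i hi => Nat.find_min hex hi⟩
  have hno : ∀ i, 1 ≤ i → i < b → (f ^ i) u ≠ u ∧ (f ^ i) u ≠ v := by
    intro i h1 h2
    have := hmin i h2
    constructor
    · intro h; exact this ⟨h1, Or.inl h⟩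
    · intro h; exact this ⟨h1, Or.inr h⟩
  refine ⟨b, hb.1, hb.2, hno, ?_⟩
  intro i
  induction i with
  | zero => intro h _; omega
  | succ i ih =>
    intro _ h2
    rcases Nat.eq_zero_or_pos i with h0 | hp
    · subst h0
      rw [zero_add, pow_one, pow_one, Perm.mul_apply, swap_apply_right]
    · rw [pow_succ', pow_succ', Perm.mul_apply, Perm.mul_apply, ih hp (by omega)]
      have := hno i hp (by omega)
      exact swap_off this.1 this.2

/-- different cycles are merged -/
theorem swap_merge {f : Perm W} {u v : W} (h : ¬ f.SameCycle u v) :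
    (f * swap u v).SameCycle u v := by
  obtain ⟨b, h1, h2, _, h4⟩ := swap_first f u v
  rcases h2 with h2 | h2
  · have := h4 b h1 le_rfl
    rw [h2] at this
    exact (nat_same b this).symm
  · exact absurd (nat_same b h2) h

/-- a cycle is cut -/
theorem swap_split {f : Perm W} {u v : W} (hne : u ≠ v) (h : f.SameCycle u v) :
    ¬ (f * swap u v).SameCycle u v := by
  obtain ⟨b, h1, h2, h3, h4⟩ := swap_first f u v
  have hb : (f ^ b) u = v := by
    rcases h2 with h2 | h2
    · exfalso
      obtain ⟨n, hn⟩ := same_nat h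
      have hmod : (f ^ (n % b)) u = v := by
        have h5 : (f ^ (b * (n / b))) u = u := by
          rw [pow_mul]
          have h6 : ∀ q : ℕ, ((f ^ b) ^ q) u = u := by
            intro q
            induction q with
            | zero => rfl
            | succ q ih => rw [pow_succ, Perm.mul_apply, h2, ih]
          exact h6 _
        have h7 : (f ^ n) u = (f ^ (n % b)) ((f ^ (b * (n / b))) u) := by
          rw [← Perm.mul_apply, ← pow_add, Nat.mod_add_div]
        rw [h7, h5] at hn
        exact hn
      rcases Nat.eq_zero_or_pos (n % b) with h0 | hp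
      · rw [h0, pow_zero, Perm.one_apply] at hmod
        exact hne hmod
      · exact (h3 _ hp (Nat.mod_lt _ (by omega))).2 hmod
    · exact h2
  intro hc
  obtain ⟨n, hn⟩ := same_nat hc.symm
  have hfix : ((f * swap u v) ^ b) v = v := by
    rw [h4 b h1 le_rfl, hb]
  have h5 : ((f * swap u v) ^ (b * (n / b))) v = v := by
    rw [pow_mul]
    have h6 : ∀ q : ℕ, (((f * swap u v) ^ b) ^ q) v = v := by
      intro q
      induction q with
      | zero => rfl
      | succ q ih => rw [pow_succ, Perm.mul_apply, hfix, ih]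
    exact h6 _
  have h7 : ((f * swap u v) ^ n) v =
      ((f * swap u v) ^ (n % b)) (((f * swap u v) ^ (b * (n / b))) v) := by
    rw [← Perm.mul_apply, ← pow_add, Nat.mod_add_div]
  rw [h7, h5] at hn
  rcases Nat.eq_zero_or_pos (n % b) with h0 | hp
  · rw [h0, pow_zero, Perm.one_apply] at hn
    exact hne hn.symm
  · have hlt := Nat.mod_lt n (show 0 < b by omega)
    rw [h4 _ hp hlt.le] at hn
    exact (h3 _ hp hlt).1 hn

/-- the number of cycles after a cut -/
theorem cy_split {f : Perm W} {u v : W} (hne : u ≠ v) (h : f.SameCycle u v) :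
    cy (f * swap u v) univ = cy f univ + 1 := by
  have hns := swap_split hne h
  have hset : univ.image (orb (f * swap u v)) =
      ((univ.image (orb f)).erase (orb f u)) ∪
        {orb (f * swap u v) u, orb (f * swap u v) v} := by
    ext O
    simp only [mem_image, mem_univ, true_and, mem_union, mem_erase, mem_insert, mem_singleton]
    constructor
    · rintro ⟨w, rfl⟩
      by_cases hw : f.SameCycle w u
      · right
        rcases swap_reach (v := v) (Or.inl hw) with h1 | h1
        · left; exact orb_eq_iff.2 h1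
        · right; exact orb_eq_iff.2 h1
      · left
        have h1 : orb (f * swap u v) w = orb f w := by
          apply orb_congr
          intro x hx
          apply swap_off
          · rintro rfl; exact hw (mem_orb.1 hx)
          · rintro rfl; exact hw ((mem_orb.1 hx).trans h.symm)
        rw [h1]
        exact ⟨fun he => hw (orb_eq_iff.1 he), w, rfl⟩
    · rintro (⟨hO, w, rfl⟩ | rfl | rfl)
      · refine ⟨w, ?_⟩
        apply orb_congr
        intro x hx
        apply swap_off
        · rintro rfl; exact hO (orb_eq_iff.2 (mem_orb.1 hx))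
        · rintro rfl; exact hO (orb_eq_iff.2 ((mem_orb.1 hx).trans h.symm))
      · exact ⟨u, rfl⟩
      · exact ⟨v, rfl⟩
  have hdis : Disjoint ((univ.image (orb f)).erase (orb f u))
      {orb (f * swap u v) u, orb (f * swap u v) v} := by
    rw [disjoint_left]
    intro O hO hO2
    rw [mem_erase, mem_image] at hO
    obtain ⟨hO1, w, _, rfl⟩ := hO
    rw [mem_insert, mem_singleton] at hO2
    rcases hO2 with h1 | h1
    · have : u ∈ orb f w := by rw [h1]; exact self_mem_orb _ u
      exact hO1 (orb_eq_iff.2 (mem_orb.1 this))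
    · have : v ∈ orb f w := by rw [h1]; exact self_mem_orb _ v
      exact hO1 (orb_eq_iff.2 ((mem_orb.1 this).trans h.symm))
  unfold cy
  rw [hset, card_union_of_disjoint hdis, card_erase_of_mem (mem_image_of_mem _ (mem_univ u)),
    card_pair (fun he => hns (orb_eq_iff.1 he))]
  have : 0 < (univ.image (orb f)).card := card_pos.2 ⟨_, mem_image_of_mem _ (mem_univ u)⟩
  omega

theorem sign_cy (f : Perm W) : Perm.sign f = (-1) ^ (Fintype.card W + cy f univ) := by
  induction f using Perm.swap_induction_on' with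
  | one =>
    have h1 : cy (1 : Perm W) univ = Fintype.card W := by
      unfold cy
      rw [card_image_of_injective _ ?_, card_univ]
      intro u v huv
      have := orb_eq_iff.1 huv
      obtain ⟨n, hn⟩ := same_nat this
      rw [one_pow, Perm.one_apply] at hn
      exact hn
    rw [h1, Perm.sign_one, ← two_mul, pow_mul]
    simp
  | mul_swap f u v hne ih =>
    rw [Perm.sign_mul, Perm.sign_swap hne, ih]
    by_cases h : f.SameCycle u v
    · rw [cy_split hne h, ← add_assoc, pow_succ]
    · have h1 := cy_split hne (swap_merge h)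
      rw [mul_assoc, swap_mul_self, mul_one] at h1
      rw [h1, ← add_assoc, pow_succ, mul_assoc]
      simp

/-- parity of the number of the cycles which meet `A`, for permutations which agree outside `A` -/
theorem cy_parity {f f' : Perm W} {A : Finset W} (h : ∀ w, w ∉ A → f' w = f w) :
    Perm.sign f' = Perm.sign f * (-1) ^ (cy f A + cy f' A) := by
  rw [sign_cy f, sign_cy f', cy_univ f A, cy_univ f' A, cyx_congr univ h, ← pow_add]
  have : Fintype.card W + (cy f A + cyx f univ A) + (cy f A + cy f' A) =
      (Fintype.card W + (cy f' A + cyx f univ A)) + 2 * cy f A := by ring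
  rw [this, pow_add _ _ (2 * _), pow_mul]
  simp

end Pool.OddHC
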