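import Pool.Agent.Work.MP_8f87b2_base.Rule1

/-!
MP_8f87b2_co, base: first return to the set of the used words; a single triple is a good cluster; one cycle at the end.
-/

namespace Pool.OddHC

open Finset Equiv

variable {W : Type*} [Fintype W] [DecidableEq W]

/-! ### First return -/

omit [DecidableEq W] in
theorem ret_ex (f : Perm W) (U : Finset W) (u : {w // w ∈ U}) : ∃ n : ℕ, 1 ≤ n ∧ (f ^ n) u.1 ∈ U := by
  refine ⟨orderOf f, orderOf_pos f, ?_⟩
  rw [pow_orderOf_eq_one]
  exact u.2

/-- the time of the first return -/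
noncomputable def rN (f : Perm W) (U : Finset W) (u : {w // w ∈ U}) : ℕ := by
  classical exact Nat.find (ret_ex f U u)

theorem rN_spec (f : Perm W) (U : Finset W) (u : {w // w ∈ U}) :
    1 ≤ rN f U u ∧ (f ^ (rN f U u)) u.1 ∈ U := by
  classical
  unfold rN
  exact Nat.find_spec (ret_ex f U u)

theorem rN_min (f : Perm W) (U : Finset W) (u : {w // w ∈ U}) {i : ℕ} (h1 : 1 ≤ i)
    (h2 : i < rN f U u) : (f ^ i) u.1 ∉ U := by
  classical
  unfold rN at h2
  intro h
  exact Nat.find_min (ret_ex f U u) h2 ⟨h1, h⟩

theorem rN_eq (f : Perm W) (U : Finset W) (u : {w // w ∈ U}) {n : ℕ} (h1 : 1 ≤ n)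
    (h2 : (f ^ n) u.1 ∈ U) (h3 : ∀ i, 1 ≤ i → i < n → (f ^ i) u.1 ∉ U) : rN f U u = n := by
  rcases lt_trichotomy (rN f U u) n with h | h | h
  · exact absurd (rN_spec f U u).2 (h3 _ (rN_spec f U u).1 h)
  · exact h
  · exact absurd h2 (rN_min f U u h1 h)

/-- the first return map -/
noncomputable def retF (f : Perm W) (U : Finset W) (u : {w // w ∈ U}) : {w // w ∈ U} :=
  ⟨(f ^ (rN f U u)) u.1, (rN_spec f U u).2⟩

theorem retF_inj (f : Perm W) (U : Finset W) : Function.Injective (retF f U) := by
  have key : ∀ u v : {w // w ∈ U}, rN f U u ≤ rN f U v → retF f U u = retF f U v → u = v := by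
    intro u v hle h
    have h1 : (f ^ (rN f U u)) u.1 = (f ^ (rN f U v)) v.1 := congrArg Subtype.val h
    obtain ⟨d, hd⟩ := Nat.exists_eq_add_of_le hle
    rw [hd, pow_add, Perm.mul_apply] at h1
    have h2 := (f ^ (rN f U u)).injective h1
    rcases Nat.eq_zero_or_pos d with h0 | hp
    · rw [h0, pow_zero, Perm.one_apply] at h2
      exact Subtype.ext h2
    · exfalso
      have h3 := rN_spec f U u
      refine rN_min f U v hp (by omega) ?_
      rw [← h2]
      exact u.2
  intro u v h
  rcases le_total (rN f U u) (rN f U v) with hle | hle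
  · exact key u v hle h
  · exact (key v u hle h.symm).symm

/-- the first return permutation -/
noncomputable def ret (f : Perm W) (U : Finset W) : Perm {w // w ∈ U} :=
  Equiv.ofBijective (retF f U) (Finite.injective_iff_bijective.1 (retF_inj f U))

theorem ret_apply (f : Perm W) (U : Finset W) (u : {w // w ∈ U}) :
    ((ret f U u : {w // w ∈ U}) : W) = (f ^ (rN f U u)) u.1 := rfl

theorem ret_eq (f : Perm W) (U : Finset W) (u v : {w // w ∈ U}) {n : ℕ} (h1 : 1 ≤ n)
    (h2 : (f ^ n) u.1 = v.1) (h3 : ∀ i, 1 ≤ i → i < n → (f ^ i) u.1 ∉ U) : ret f U u = v := by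
  have : rN f U u = n := rN_eq f U u h1 (by rw [h2]; exact v.2) h3
  apply Subtype.ext
  rw [ret_apply, this, h2]

/-- `u` and `v` in the same cycle of `f` iff in the same cycle of the first return -/
theorem ret_same (f : Perm W) (U : Finset W) (u v : {w // w ∈ U}) :
    (ret f U).SameCycle u v ↔ f.SameCycle u.1 v.1 := by
  constructor
  · intro h
    obtain ⟨n, hn⟩ := same_nat h
    have key : ∀ n : ℕ, f.SameCycle u.1 (((ret f U) ^ n) u).1 := by
      intro n
      induction n with
      | zero => exact Perm.SameCycle.refl f _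
      | succ n ih =>
        rw [pow_succ', Perm.mul_apply, ret_apply]
        exact ih.trans (nat_same _ rfl)
    rw [← hn]
    exact key n
  · intro h
    obtain ⟨n, hn⟩ := same_nat h
    have key : ∀ n : ℕ, ∀ u : {w // w ∈ U}, (f ^ n) u.1 = v.1 → (ret f U).SameCycle u v := by
      intro n
      induction n using Nat.strong_induction_on with
      | _ n ih =>
        intro u hu
        rcases Nat.eq_zero_or_pos n with h0 | hp
        · rw [h0, pow_zero, Perm.one_apply] at hu
          rw [Subtype.ext hu]
        · have h1 := rN_spec f U u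
          have h2 : rN f U u ≤ n := by
            by_contra hlt
            push Not at hlt
            exact rN_min f U u hp hlt (by rw [hu]; exact v.2)
          obtain ⟨d, hd⟩ := Nat.exists_eq_add_of_le h2
          have h3 : (f ^ d) (ret f U u).1 = v.1 := by
            rw [ret_apply, ← Perm.mul_apply, ← pow_add, add_comm d, ← hd, hu]
          have h4 := ih d (by omega) (ret f U u) h3
          exact (nat_same 1 (by rw [pow_one])).trans h4
    exact key n u hn

/-- toggles commute with the first return -/
theorem ret_mul (f : Perm W) (U : Finset W) (π : Perm W) (ρ : Perm {w // w ∈ U})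
    (h1 : ∀ w, w ∉ U → π w = w) (h2 : ∀ u : {w // w ∈ U}, (ρ u).1 = π u.1) :
    ret (f * π) U = ret f U * ρ := by
  ext u
  rw [Perm.mul_apply]
  congr 1
  have hs := rN_spec f U (ρ u)
  have key : ∀ i, 1 ≤ i → i ≤ rN f U (ρ u) → ((f * π) ^ i) u.1 = (f ^ i) (ρ u).1 := by
    intro i
    induction i with
    | zero => intro h _; omega
    | succ i ih =>
      intro _ hi
      rcases Nat.eq_zero_or_pos i with h0 | hp
      · subst h0
        rw [zero_add, pow_one, pow_one, Perm.mul_apply, h2]
      · rw [pow_succ', pow_succ', Perm.mul_apply, Perm.mul_apply, ih hp (by omega),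
          Perm.mul_apply, h1 _ (rN_min f U (ρ u) hp (by omega))]
  apply ret_eq (f * π) U u (ret f U (ρ u)) hs.1
  · rw [key _ hs.1 le_rfl, ret_apply]
  · intro i hi1 hi2
    rw [key i hi1 hi2.le]
    exact rN_min f U (ρ u) hi1 hi2

/-! ### A single triple -/

/-- the 3-cycle `x → y → z → x` -/
def cyc3 (x y z : W) : Perm W := swap x y * swap y z

omit [Fintype W] in
theorem cyc3_off {x y z w : W} (h1 : w ≠ x) (h2 : w ≠ y) (h3 : w ≠ z) : cyc3 x y z w = w := by
  unfold cyc3
  rw [Perm.mul_apply, swap_apply_of_ne_of_ne h2 h3, swap_apply_of_ne_of_ne h1 h2]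

omit [Fintype W] in
theorem cyc3_x {x y z : W} (h1 : x ≠ y) (h2 : x ≠ z) : cyc3 x y z x = y := by
  unfold cyc3
  rw [Perm.mul_apply, swap_apply_of_ne_of_ne h1 h2, swap_apply_left]

omit [Fintype W] in
theorem cyc3_y {x y z : W} (h2 : x ≠ z) (h3 : y ≠ z) : cyc3 x y z y = z := by
  unfold cyc3
  rw [Perm.mul_apply, swap_apply_left, swap_apply_of_ne_of_ne h2.symm h3.symm]

omit [Fintype W] in
theorem cyc3_z {x y z : W} : cyc3 x y z z = x := by
  unfold cyc3
  rw [Perm.mul_apply, swap_apply_right, swap_apply_right]

theorem cyc3_sign {x y z : W} (h1 : x ≠ y) (h3 : y ≠ z) : Perm.sign (cyc3 x y z) = 1 := by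
  unfold cyc3
  rw [Perm.sign_mul, Perm.sign_swap h1, Perm.sign_swap h3]
  decide

/-- a single triple is a good cluster -/
theorem good_triple {x y z : W} (h1 : x ≠ y) (h2 : x ≠ z) (h3 : y ≠ z) :
    Good ({x, y, z} : Finset W) {1, cyc3 x y z} ∅ where
  dom := by
    intro p hp
    exact absurd hp (Set.notMem_empty p)
  supp := by
    rintro π (rfl | hπ) w hw
    · rfl
    · rw [Set.mem_singleton_iff] at hπ
      subst hπ
      simp only [mem_insert, mem_singleton, not_or] at hw
      exact cyc3_off hw.1 hw.2.1 hw.2.2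
  even := by
    rintro π (rfl | hπ)
    · exact Perm.sign_one
    · rw [Set.mem_singleton_iff] at hπ
      subst hπ
      exact cyc3_sign h1 h3
  good := by
    intro g _
    by_cases hc : cy g ({x, y, z} : Finset W) ≤ 2
    · exact ⟨1, Or.inl rfl, by rw [mul_one]; exact hc⟩
    · refine ⟨cyc3 x y z, Or.inr rfl, ?_⟩
      push Not at hc
      have hne : ∀ u v : W, u ∈ ({x, y, z} : Finset W) → v ∈ ({x, y, z} : Finset W) → u ≠ v →
          ¬ g.SameCycle u v := by
        intro u v hu hv huv hs
        have hsub : ({x, y, z} : Finset W).image (orb g) ⊆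
            (({x, y, z} : Finset W).erase u).image (orb g) := by
          intro O hO
          obtain ⟨t, ht, rfl⟩ := mem_image.1 hO
          by_cases htu : t = u
          · subst htu
            exact mem_image.2 ⟨v, mem_erase.2 ⟨huv.symm, hv⟩, (orb_eq_iff.2 hs).symm⟩
          · exact mem_image.2 ⟨t, mem_erase.2 ⟨htu, ht⟩, rfl⟩
        have h4 := (card_le_card hsub).trans card_image_le
        rw [card_erase_of_mem hu] at h4
        have h5 : ({x, y, z} : Finset W).card ≤ 3 := card_le_three
        unfold cy at hc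
        omega
      have hx : x ∈ ({x, y, z} : Finset W) := by simp
      have hy : y ∈ ({x, y, z} : Finset W) := by simp
      have hz : z ∈ ({x, y, z} : Finset W) := by simp
      have n1 := hne x y hx hy h1
      have n2 := hne x z hx hz h2
      have n3 := hne y z hy hz h3
      -- after the first transposition
      have s1 : (g * swap x y).SameCycle x y := swap_merge n1
      have s2 : ¬ (g * swap x y).SameCycle y z := by
        intro hs
        have h4 : orb (g * swap x y) z = orb g z := by
          apply orb_congr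
          intro t ht
          apply swap_off
          · rintro rfl; exact n2 (mem_orb.1 ht).symm
          · rintro rfl; exact n3 (mem_orb.1 ht).symm
        have h5 : y ∈ orb (g * swap x y) z := mem_orb.2 hs.symm
        rw [h4] at h5
        exact n3 (mem_orb.1 h5).symm
      have s3 : (g * swap x y * swap y z).SameCycle y z := swap_merge s2
      have s4 := swap_reach (v := z) (Or.inl s1)
      have hall : ∀ t ∈ ({x, y, z} : Finset W), orb (g * cyc3 x y z) t = orb (g * cyc3 x y z) y := by
        have e1 : g * cyc3 x y z = g * swap x y * swap y z := by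
          unfold cyc3
          rw [mul_assoc]
        rw [e1]
        intro t ht
        rw [orb_eq_iff]
        simp only [mem_insert, mem_singleton] at ht
        rcases ht with rfl | rfl | rfl
        · rcases s4 with s4 | s4
          · exact s4
          · exact s4.trans s3.symm
        · exact Perm.SameCycle.refl _ _
        · exact s3.symm
      have hle : cy (g * cyc3 x y z) ({x, y, z} : Finset W) ≤ 1 := by
        unfold cy
        rw [card_le_one]
        intro O hO O' hO'
        obtain ⟨t, ht, rfl⟩ := mem_image.1 hO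
        obtain ⟨t', ht', rfl⟩ := mem_image.1 hO'
        rw [hall t ht, hall t' ht']
      omega

/-- ONE CYCLE: a good cluster on all words, for a permutation with an odd number of cycles -/
theorem Good.one {P : Set (Perm W)} {I : Set (W × W)} (h : Good univ P I) (g : Perm W)
    (hI : ∀ p ∈ I, g p.1 = p.2) (hodd : Odd (cy g univ)) : ∃ π ∈ P, cy (g * π) univ = 1 := by
  obtain ⟨π, hπ, hc⟩ := h.good g hI
  refine ⟨π, hπ, ?_⟩
  have h1 := sign_cy g
  have h2 := sign_cy (g * π)
  rw [Perm.sign_mul, h.even π hπ, mul_one, h1] at h2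
  have h3 : ((-1 : ℤˣ)) ^ (cy g univ) = (-1) ^ (cy (g * π) univ) := by
    rw [pow_add, pow_add] at h2
    exact mul_left_cancel h2
  rw [hodd.neg_one_pow] at h3
  rcases Nat.even_or_odd (cy (g * π) univ) with h4 | h4
  · rw [h4.neg_one_pow] at h3
    exact absurd h3 (by decide)
  · obtain ⟨m, hm⟩ := h4
    omega

end Pool.OddHC
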