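import Pool.Agent.Work.MP_8f87b2_base.Leg
import Pool.Agent.Work.MP_8f87b2_base.Ret

/-!
MP_8f87b2_co, base: frames as lists; the triples `P(Q)R → Q(R)P → R(P)Q` are legal.
-/

namespace Pool.OddHC

open Finset BinaryTree Equiv

variable {k : ℕ}

/-- concatenation of forests -/
def app : BinaryTree Unit → BinaryTree Unit → BinaryTree Unit
  | .nil, t => t
  | .node _ A B, t => A △ app B t

theorem wd_app (P t : BinaryTree Unit) : wd (app P t) = wd P ++ wd t := by
  induction P with
  | nil => rfl
  | node _ A B _ ihB =>
    rw [app, wd_node, ihB, wd]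
    simp

theorem num_app (P t : BinaryTree Unit) : (app P t).numNodes = P.numNodes + t.numNodes := by
  have h := congrArg List.length (wd_app P t)
  rw [wd_length, List.length_append, wd_length, wd_length] at h
  omega

/-- words are equal if their lists are equal -/
theorem wd_ext {t t' : BinaryTree Unit} (h : wd t = wd t') : t = t' :=
  (wd_inj t t' [] [] (by rw [h])).1

/-- pointwise order of lists -/
def leL (L L' : List Bool) : Prop := List.Forall₂ (fun a b : Bool => a = true → b = true) L L'

theorem leL_refl (L : List Bool) : leL L L := List.forall₂_same.2 fun _ _ h => h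

theorem leL_app {A A' B B' : List Bool} (h1 : leL A A') (h2 : leL B B') :
    leL (A ++ B) (A' ++ B') := List.rel_append h1 h2

theorem leL_cons {a b : Bool} {B B' : List Bool} (h1 : a = true → b = true) (h2 : leL B B') :
    leL (a :: B) (b :: B') := List.Forall₂.cons h1 h2

theorem leL_st {n : ℕ} [NeZero n] {L L' : List Bool} (h : leL L L') (s : ZMod n) :
    st n L s ⊆ st n L' s := by
  intro j hj
  rw [mem_st] at hj ⊢
  generalize (j - s).val = i at hj
  unfold leL at h
  induction h generalizing i with
  | nil => exact hj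
  | cons hab _ ih =>
    cases i with
    | zero =>
      simp only [List.getElem?_cons_zero, Option.some.injEq] at hj ⊢
      exact hab hj
    | succ i =>
      rw [List.getElem?_cons_succ] at hj ⊢
      exact ih i hj

/-- the vertex of a word as a framed list -/
theorem io_frame {w : X k} {A B : List Bool} (h : wd w.1 = B ++ A) :
    io w (A.length : ZMod (2 * k + 1)) = st (2 * k + 1) (A ++ false :: B) 0 := by
  have hl : (A ++ false :: B).length = 2 * k + 1 := by
    have h1 := congrArg List.length h
    rw [wd_length, X_num, List.length_append] at h1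
    rw [List.length_append, List.length_cons]
    omega
  have h1 := st_rotate (A ++ false :: B) hl 0 A.length
  rw [zero_add] at h1
  rw [← h1]
  unfold io
  have h2 : (A ++ false :: B).rotate A.length = sl w.1 := by
    rw [List.rotate_append_length_eq]
    unfold sl
    rw [h]
    rfl
  rw [h2]

theorem st_insert {n : ℕ} [NeZero n] {A B : List Bool} (hl : A.length < n) :
    st n (A ++ true :: B) 0 = insert (A.length : ZMod n) (st n (A ++ false :: B) 0) := by
  ext j
  rw [mem_insert, mem_st, mem_st, sub_zero]
  rcases lt_trichotomy j.val A.length with h | h | h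
  · rw [List.getElem?_append_left h, List.getElem?_append_left h]
    constructor
    · intro h1; exact Or.inr h1
    · rintro (h1 | h1)
      · rw [h1, ZMod.val_natCast, Nat.mod_eq_of_lt hl] at h
        omega
      · exact h1
  · have h2 : j = (A.length : ZMod n) := by
      rw [← h, ZMod.natCast_zmod_val]
    rw [List.getElem?_append_right (by omega), List.getElem?_append_right (by omega), h]
    simp [h2]
  · rw [List.getElem?_append_right h.le, List.getElem?_append_right h.le]
    obtain ⟨d, hd⟩ : ∃ d, j.val - A.length = d + 1 := ⟨j.val - A.length - 1, by omega⟩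
    rw [hd, List.getElem?_cons_succ, List.getElem?_cons_succ]
    constructor
    · intro h1; exact Or.inr h1
    · rintro (h1 | h1)
      · rw [h1, ZMod.val_natCast, Nat.mod_eq_of_lt hl] at h
        omega
      · exact h1

/-- CRITERION: framed lists `A * B` and `A' * B'` -/
theorem frame_le {w u : X k} {A B A' B' : List Bool} (hw : wd w.1 = B ++ A)
    (hu : wd u.1 = B' ++ A') (h : leL (A ++ false :: B) (A' ++ true :: B')) :
    io w (A.length : ZMod (2 * k + 1)) ⊆
      insert (A'.length : ZMod (2 * k + 1)) (io u (A'.length : ZMod (2 * k + 1))) := by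
  have hl : A'.length < 2 * k + 1 := by
    have h1 := congrArg List.length hu
    rw [wd_length, X_num, List.length_append] at h1
    omega
  rw [io_frame hw, io_frame hu, ← st_insert hl]
  exact leL_st h 0

/-! ### Triples -/

/-- the word `P(Q)R` -/
def w1 (P Q R : BinaryTree Unit) : BinaryTree Unit := app P (Q △ R)

theorem wd_w1 (P Q R : BinaryTree Unit) : wd (w1 P Q R) = wd P ++ true :: (wd Q ++ false :: wd R) := by
  unfold w1
  rw [wd_app, wd_node]

theorem w1_num (P Q R : BinaryTree Unit) :
    (w1 P Q R).numNodes = P.numNodes + Q.numNodes + R.numNodes + 1 := by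
  unfold w1
  rw [num_app]
  change P.numNodes + (Q.numNodes + R.numNodes + 1) = _
  omega

/-- the word `P(Q)R` as an element of `X k` -/
def x1 (P Q R : BinaryTree Unit) (h : P.numNodes + Q.numNodes + R.numNodes + 1 = k) : X k :=
  ⟨w1 P Q R, mem_treesOfNumNodesEq.2 (by rw [w1_num, h])⟩

/-- the move `P(Q)R → Q(R)P` in a common frame -/
theorem move {P Q R : BinaryTree Unit} (h : P.numNodes + Q.numNodes + R.numNodes + 1 = k)
    (h' : Q.numNodes + R.numNodes + P.numNodes + 1 = k) :
    Le (x1 P Q R h) (x1 Q R P h') ((2 * P.numNodes + 1 : ℕ) : ZMod (2 * k + 1)) := by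
  have h1 : wd (x1 P Q R h).1 = (wd P ++ true :: (wd Q ++ false :: wd R)) ++ [] := by
    change wd (w1 P Q R) = _
    rw [wd_w1, List.append_nil]
  have h2 : wd (x1 Q R P h').1 = (wd Q ++ true :: (wd R ++ [false])) ++ wd P := by
    change wd (w1 Q R P) = _
    rw [wd_w1]
    simp
  -- frame which starts with the star of `P(Q)R`
  have e1 := io_frame (k := k) h1
  have hl : (false :: (wd P ++ true :: (wd Q ++ false :: wd R))).length = 2 * k + 1 := by
    have := congrArg List.length h1
    rw [wd_length, X_num, List.append_nil] at this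
    rw [List.length_cons]
    omega
  unfold Le
  rw [List.length_nil, Nat.cast_zero, List.nil_append] at e1
  rw [e1]
  have h3 : wd (x1 Q R P h').1 = (wd Q ++ true :: wd R) ++ (false :: wd P) := by
    change wd (w1 Q R P) = _
    rw [wd_w1]
    simp
  have e2 := io_frame (k := k) h3
  have e3 : (false :: wd P).length = 2 * P.numNodes + 1 := by
    rw [List.length_cons, wd_length]
  have hlt : (false :: wd P).length < 2 * k + 1 := by
    rw [e3]
    omega
  rw [← e3, e2, ← st_insert hlt]
  apply leL_st
  rw [List.cons_append]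
  apply leL_cons (by simp)
  apply leL_app (leL_refl _)
  apply leL_cons (by simp)
  apply leL_app (leL_refl _)
  apply leL_cons (by simp)
  exact leL_refl _

/-- TRIPLES ARE LEGAL -/
theorem triple_legal {P Q R : BinaryTree Unit} (h1 : P.numNodes + Q.numNodes + R.numNodes + 1 = k)
    (h2 : Q.numNodes + R.numNodes + P.numNodes + 1 = k)
    (h3 : R.numNodes + P.numNodes + Q.numNodes + 1 = k) {a b c : X k}
    (ha : a = x1 P Q R h1) (hb : b = x1 Q R P h2) (hc : c = x1 R P Q h3)
    (hab : a ≠ b) (hac : a ≠ c) (hbc : b ≠ c) :
    ∃ z : X k → ZMod (2 * k + 1), (∀ w, w ≠ a → w ≠ b → w ≠ c → z w = 0) ∧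
      Legal (cyc3 a b c) z := by
  classical
  have m1 : Le a b ((2 * P.numNodes + 1 : ℕ) : ZMod (2 * k + 1)) := by
    rw [ha, hb]; exact move h1 h2
  have m2 : Le b c ((2 * Q.numNodes + 1 : ℕ) : ZMod (2 * k + 1)) := by
    rw [hb, hc]; exact move h2 h3
  have m3 : Le c a ((2 * R.numNodes + 1 : ℕ) : ZMod (2 * k + 1)) := by
    rw [hc, ha]; exact move h3 h1
  refine ⟨fun w => if w = a then ((2 * P.numNodes + 1 : ℕ) : ZMod (2 * k + 1)) else
    if w = b then ((2 * Q.numNodes + 1 : ℕ) : ZMod (2 * k + 1)) else
    if w = c then ((2 * R.numNodes + 1 : ℕ) : ZMod (2 * k + 1)) else 0, ?_, ?_, ?_⟩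
  · intro w e1 e2 e3
    simp only [if_neg e1, if_neg e2, if_neg e3]
  · intro w
    by_cases e1 : w = a
    · simp only [if_pos e1]
      rw [e1, cyc3_x hab hac]
      exact m1
    · by_cases e2 : w = b
      · simp only [if_neg e1, if_pos e2]
        rw [e2, cyc3_y hac hbc]
        exact m2
      · by_cases e3 : w = c
        · simp only [if_neg e1, if_neg e2, if_pos e3]
          rw [e3, cyc3_z]
          exact m3
        · simp only [if_neg e1, if_neg e2, if_neg e3]
          rw [cyc3_off e1 e2 e3]
          exact Le.refl w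
  · have h0 : ((2 * k + 1 : ℕ) : ZMod (2 * k + 1)) = 0 := ZMod.natCast_self _
    have e1 : ∀ w : X k, (if w = a then ((2 * P.numNodes + 1 : ℕ) : ZMod (2 * k + 1)) else
        if w = b then ((2 * Q.numNodes + 1 : ℕ) : ZMod (2 * k + 1)) else
        if w = c then ((2 * R.numNodes + 1 : ℕ) : ZMod (2 * k + 1)) else 0) =
        (if w = a then ((2 * P.numNodes + 1 : ℕ) : ZMod (2 * k + 1)) else 0) +
        (if w = b then ((2 * Q.numNodes + 1 : ℕ) : ZMod (2 * k + 1)) else 0) +
        (if w = c then ((2 * R.numNodes + 1 : ℕ) : ZMod (2 * k + 1)) else 0) := by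
      intro w
      by_cases e1 : w = a
      · rw [e1]
        simp [hab, hac]
      · by_cases e2 : w = b
        · rw [e2]
          simp [hab.symm, hbc]
        · simp [e1, e2]
    rw [sum_congr rfl (fun w _ => e1 w), sum_add_distrib, sum_add_distrib]
    simp only [sum_ite_eq', mem_univ, if_true]
    rw [← Nat.cast_add, ← Nat.cast_add, ← h0]
    congr 1
    omega

end Pool.OddHC
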