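import Pool.Agent.Work.MP_8f87b2_h35.Abs
import Pool.Agent.Work.MP_8f87b2_h24.AAll

/-!
MP_8f87b2_co, base: the certificate of the 20-word absorber (one new T-cycle with the words 0 and 10) is checked in parts in
`MP_8f87b2_h24.A1`, ... (`Cert.run20`).
-/
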