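import Pool.Agent.Work.MP_8f87b2_base.Gad9
import Pool.Agent.Work.MP_8f87b2_base.Run20

/-!
MP_8f87b2_co, base: the 20-word absorber with its real words: the blocks `[R;e,Q,e,e]` and `[B;e,Q,e,S]`.
-/

namespace Pool.OddHC

open Finset BinaryTree Equiv

variable {k : ℕ}

/-- the walk returns to `B` in the only other point -/
theorem FR_pair {W : Type} [Fintype W] (f : Perm W) (B : Finset W) (u v : W) (hv : v ∈ B)
    (huv : u ≠ v) (hs : f.SameCycle u v) (h : ∀ x ∈ B, f.SameCycle u x → x = u ∨ x = v) :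
    FR f B u v := by
  classical
  have hex : ∃ n : ℕ, (f ^ (n + 1)) u = v := by
    obtain ⟨n, hn⟩ := same_nat hs
    rcases n with _ | n
    · rw [pow_zero, Perm.one_apply] at hn
      exact absurd hn huv
    · exact ⟨n, hn⟩
  refine ⟨Nat.find hex, Nat.find_spec hex, ?_⟩
  intro i hi hB
  have h1 : f.SameCycle u ((f ^ (i + 1)) u) := ⟨((i + 1 : ℕ) : ℤ), by rw [zpow_natCast]⟩
  rcases h _ hB h1 with h2 | h2
  · -- the walk is back at `u` before it meets `v`
    have h3 := Nat.find_spec hex
    have h4 : (f ^ (Nat.find hex - (i + 1) + 1)) u = v := by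
      have h5 : (f ^ (Nat.find hex + 1)) u = (f ^ (Nat.find hex - (i + 1) + 1)) ((f ^ (i + 1)) u) := by
        rw [← Perm.mul_apply, ← pow_add]
        congr 2
        omega
      rw [h5, h2] at h3
      exact h3
    exact Nat.find_min hex (by omega) h4
  · exact Nat.find_min hex hi h2

/-- the twenty words -/
def w20 (R Q B S : BinaryTree Unit) (i : ℕ) : BinaryTree Unit :=
  if i < 10 then bw .nil Q .nil .nil R i else bw .nil Q .nil S B (i - 10)

/-- star positions -/
def s20 (q s : ℕ) (i : ℕ) : ℕ := if i < 10 then bs 0 q 0 0 i else bs 0 q 0 s (i - 10)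

/-- the 20-word absorber -/
noncomputable def gad20 (w : ℕ → X k) : DG k := by
  classical
  exact
    { B := (range 20).image w
      F := {x | TT.SameCycle (w 0) x}
      arcs := {(w 0, w 10), (w 1, w 11), (w 3, w 12), (w 6, w 15), (w 8, w 14), (w 9, w 17)} }

theorem al20_cases : ∀ i j : Fin 20, Abs.bit (Cert.al.getD i.1 0) j.1 = true →
    (i.1 < 10 ∧ j.1 < 10 ∧ Abs.bit (bal.getD i.1 0) j.1 = true) ∨
      (10 ≤ i.1 ∧ 10 ≤ j.1 ∧ Abs.bit (bal.getD (i.1 - 10) 0) (j.1 - 10) = true) := by
  decide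

theorem hfr20 {R Q B S : BinaryTree Unit} (hR : Q.numNodes + R.numNodes + 2 = k)
    (hB : Q.numNodes + S.numNodes + B.numNodes + 2 = k)
    {w : ℕ → X k} (hw : ∀ i < 20, (w i).1 = w20 R Q B S i) :
    ∀ i < Cert.al.length, ∀ j < Cert.al.length, Abs.bit (Cert.al.getD i 0) j = true →
      io (w i) ((s20 Q.numNodes S.numNodes i : ℕ) : ZMod (2 * k + 1)) ⊆
        insert ((s20 Q.numNodes S.numNodes j : ℕ) : ZMod (2 * k + 1))
          (io (w j) ((s20 Q.numNodes S.numNodes j : ℕ) : ZMod (2 * k + 1))) := by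
  intro i hi j hj hb
  have hi' : i < 20 := hi
  have hj' : j < 20 := hj
  rcases al20_cases ⟨i, hi'⟩ ⟨j, hj'⟩ hb with ⟨h1, h2, h3⟩ | ⟨h1, h2, h3⟩
  · have h1' : i < 10 := h1
    have h2' : j < 10 := h2
    have h4 := block_al (k := k) .nil Q .nil .nil R (by
      change 0 + Q.numNodes + 0 + 0 + R.numNodes + 2 = k
      omega) h1' h2' (by rw [hw i hi', w20, if_pos h1'])
      (by rw [hw j hj', w20, if_pos h2']) h3 0
    unfold s20
    rw [if_pos h1', if_pos h2']
    rw [zero_add, zero_add] at h4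
    exact h4
  · have h1' : 10 ≤ i := h1
    have h2' : 10 ≤ j := h2
    have h4 := block_al (k := k) .nil Q .nil S B (by
      change 0 + Q.numNodes + 0 + S.numNodes + B.numNodes + 2 = k
      omega) (show i - 10 < 10 by omega) (show j - 10 < 10 by omega)
      (by rw [hw i hi', w20, if_neg (by omega)])
      (by rw [hw j hj', w20, if_neg (by omega)]) h3 0
    unfold s20
    rw [if_neg (by omega), if_neg (by omega)]
    rw [zero_add, zero_add] at h4
    exact h4

/-- THE 20-WORD ABSORBER: only the T-cycle of `R((Q))` is new, it contains `B((Q))S` and none of the other words. -/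
theorem gad20_abs {R Q B S : BinaryTree Unit} (hR : Q.numNodes + R.numNodes + 2 = k)
    (hB : Q.numNodes + S.numNodes + B.numNodes + 2 = k)
    {w : ℕ → X k} (hw : ∀ i < 20, (w i).1 = w20 R Q B S i)
    (hinj : ∀ i < 20, ∀ j < 20, w i = w j → i = j) (h10 : TT.SameCycle (w 0) (w 10))
    (hold : ∀ i < 20, i ≠ 0 → i ≠ 10 → ¬ TT.SameCycle (w 0) (w i)) :
    (gad20 w).Abs := by
  classical
  have hBm : ∀ x, x ∈ (gad20 w).B ↔ ∃ i < Cert.al.length, w i = x := by
    intro x
    change x ∈ (range 20).image w ↔ _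
    rw [mem_image]
    constructor
    · rintro ⟨i, hi, rfl⟩
      exact ⟨i, mem_range.1 hi, rfl⟩
    · rintro ⟨i, hi, rfl⟩
      exact ⟨i, mem_range.2 hi, rfl⟩
  have hbit : ∀ i : ℕ, Abs.bit Cert.F_0 i = true ↔ (i = 0 ∨ i = 10) := by
    intro i
    rw [Abs.bit_eq]
    constructor
    · intro h
      have h20 : i < 11 := by
        by_contra h2
        have h3 : Cert.F_0 < 2 ^ i := lt_of_lt_of_le (by decide)
          (Nat.pow_le_pow_right (by norm_num) (show 11 ≤ i by omega))
        rw [Nat.testBit_lt_two_pow h3] at h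
        exact absurd h (by simp)
      interval_cases i <;> first | (left; rfl) | (right; rfl) | (exact absurd h (by decide))
    · rintro (rfl | rfl) <;> decide
  have hFi : ∀ i < 20, (w i ∈ (gad20 w).F ↔ (i = 0 ∨ i = 10)) := by
    intro i hi
    change TT.SameCycle (w 0) (w i) ↔ _
    constructor
    · intro h
      by_contra h2
      push Not at h2
      exact hold i hi h2.1 h2.2 h
    · rintro (rfl | rfl)
      · exact Perm.SameCycle.refl _ _
      · exact h10
  have hne : w 0 ≠ w 10 := by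
    intro h
    have := hinj 0 (by norm_num) 10 (by norm_num) h
    omega
  have hin : ∀ x ∈ (gad20 w).B, TT.SameCycle (w 0) x → x = w 0 ∨ x = w 10 := by
    intro x hx hs
    obtain ⟨j, hj, rfl⟩ := (hBm x).1 hx
    have hj' : j < 20 := hj
    by_contra h2
    push Not at h2
    refine hold j hj' ?_ ?_ hs
    · rintro rfl
      exact h2.1 rfl
    · rintro rfl
      exact h2.2 rfl
  apply Abs.cert_abs (gad20 w) w (fun i => ((s20 Q.numNodes S.numNodes i : ℕ) : ZMod (2 * k + 1)))
    Cert.A Cert.F_0 Cert.Z_0 Cert.x0_0 Cert.z0_0 Cert.cF_0 Cert.al Cert.code_0 hBm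
  · intro i hi j hj h
    exact hinj i hi j hj h
  · intro i hi
    rw [hFi i hi, hbit]
  · intro i h
    rw [hbit] at h
    change i < 20
    omega
  · intro x y hxy hx
    exact Perm.SameCycle.trans hx hxy
  · intro i hi hd
    have hi' : i < 20 := hi
    change (w i, w (Abs.dig Cert.A i)) ∈ ({(w 0, w 10), (w 1, w 11), (w 3, w 12), (w 6, w 15),
      (w 8, w 14), (w 9, w 17)} : Set (X k × X k))
    have hd' : Abs.dig Cert.A i < 20 := hd
    interval_cases i
    · exact Or.inl rfl
    · exact Or.inr (Or.inl rfl)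
    · exact absurd hd' (by decide)
    · exact Or.inr (Or.inr (Or.inl rfl))
    · exact absurd hd' (by decide)
    · exact absurd hd' (by decide)
    · exact Or.inr (Or.inr (Or.inr (Or.inl rfl)))
    · exact absurd hd' (by decide)
    · exact Or.inr (Or.inr (Or.inr (Or.inr (Or.inl rfl))))
    · exact Or.inr (Or.inr (Or.inr (Or.inr (Or.inr rfl))))
    all_goals exact absurd hd' (by decide)
  · intro i h
    rw [hbit] at h
    rcases h with rfl | rfl
    · refine ⟨by decide, ?_⟩
      change FR TT (gad20 w).B (w 0) (w 10)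
      exact FR_pair TT _ _ _ ((hBm _).2 ⟨10, by decide, rfl⟩) hne h10 hin
    · refine ⟨by decide, ?_⟩
      change FR TT (gad20 w).B (w 10) (w 0)
      refine FR_pair TT _ _ _ ((hBm _).2 ⟨0, by decide, rfl⟩) hne.symm h10.symm ?_
      intro x hx hs
      exact (hin x hx (h10.trans hs)).symm
  · exact hfr20 hR hB hw
  · decide
  · decide
  · decide
  · exact Cert.run20

end Pool.OddHC
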