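import Pool.Agent.Work.MP_8f87b2_h35.Abs
import Pool.Agent.Work.MP_8f87b2_h24.AMAll

/-!
MP_8f87b2_co, base: the certificate of the mirror of the 20-word absorber is checked in parts in
`MP_8f87b2_h24.AM1`, ... (`CertM.run20M`).
-/
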