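import Pool.Agent.Work.MP_8f87b2_base.Gad20
import Pool.Agent.Work.MP_8f87b2_base.Run20M

/-!
MP_8f87b2_co, base: the mirror of the 20-word absorber with its real words.
-/

namespace Pool.OddHC

open Finset BinaryTree Equiv

variable {k : ℕ}

/-- index in the block of the mirrored word -/
def ix20 : ℕ → ℕ
  | 0 => 9
  | 1 => 2
  | 2 => 1
  | 3 => 3
  | 4 => 7
  | 5 => 8
  | 6 => 6
  | 7 => 4
  | 8 => 5
  | _ => 0

theorem ix20_lt (i : ℕ) : ix20 i < 10 := by
  unfold ix20
  split <;> omega

/-- the twenty mirror words `((Q))R`, ... ; `S((Q))B`, ... -/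
def w20M (R Q B S : BinaryTree Unit) (i : ℕ) : BinaryTree Unit :=
  if i < 10 then bw .nil R .nil .nil Q (ix20 i) else bw .nil B S .nil Q (ix20 (i - 10))

/-- star positions -/
def s20M (r b s : ℕ) (i : ℕ) : ℕ :=
  if i < 10 then bs 0 r 0 0 (ix20 i) else bs 0 b s 0 (ix20 (i - 10))

/-- the 20-word absorber -/
noncomputable def gad20M (w : ℕ → X k) : DG k := by
  classical
  exact
    { B := (range 20).image w
      F := {x | TT.SameCycle (w 0) x}
      arcs := {(w 10, w 0), (w 11, w 1), (w 12, w 3), (w 15, w 6), (w 14, w 8), (w 17, w 9)} }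

theorem al20M_cases : ∀ i j : Fin 20, Abs.bit (CertM.al.getD i.1 0) j.1 = true →
    (i.1 < 10 ∧ j.1 < 10 ∧ Abs.bit (bal.getD (ix20 i.1) 0) (ix20 j.1) = true) ∨
      (10 ≤ i.1 ∧ 10 ≤ j.1 ∧ Abs.bit (bal.getD (ix20 (i.1 - 10)) 0) (ix20 (j.1 - 10)) = true) := by
  decide

theorem hfr20M {R Q B S : BinaryTree Unit} (hR : Q.numNodes + R.numNodes + 2 = k)
    (hB : Q.numNodes + S.numNodes + B.numNodes + 2 = k)
    {w : ℕ → X k} (hw : ∀ i < 20, (w i).1 = w20M R Q B S i) :
    ∀ i < CertM.al.length, ∀ j < CertM.al.length, Abs.bit (CertM.al.getD i 0) j = true →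
      io (w i) ((s20M R.numNodes B.numNodes S.numNodes i : ℕ) : ZMod (2 * k + 1)) ⊆
        insert ((s20M R.numNodes B.numNodes S.numNodes j : ℕ) : ZMod (2 * k + 1))
          (io (w j) ((s20M R.numNodes B.numNodes S.numNodes j : ℕ) : ZMod (2 * k + 1))) := by
  intro i hi j hj hb
  have hi' : i < 20 := hi
  have hj' : j < 20 := hj
  rcases al20M_cases ⟨i, hi'⟩ ⟨j, hj'⟩ hb with ⟨h1, h2, h3⟩ | ⟨h1, h2, h3⟩
  · have h1' : i < 10 := h1
    have h2' : j < 10 := h2
    have h4 := block_al (k := k) .nil R .nil .nil Q (by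
      change 0 + R.numNodes + 0 + 0 + Q.numNodes + 2 = k
      omega) (ix20_lt i) (ix20_lt j) (by rw [hw i hi', w20M, if_pos h1'])
      (by rw [hw j hj', w20M, if_pos h2']) h3 0
    unfold s20M
    rw [if_pos h1', if_pos h2']
    rw [zero_add, zero_add] at h4
    exact h4
  · have h1' : 10 ≤ i := h1
    have h2' : 10 ≤ j := h2
    have h4 := block_al (k := k) .nil B S .nil Q (by
      change 0 + B.numNodes + S.numNodes + 0 + Q.numNodes + 2 = k
      omega) (ix20_lt (i - 10)) (ix20_lt (j - 10))
      (by rw [hw i hi', w20M, if_neg (by omega)])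
      (by rw [hw j hj', w20M, if_neg (by omega)]) h3 0
    unfold s20M
    rw [if_neg (by omega), if_neg (by omega)]
    rw [zero_add, zero_add] at h4
    exact h4

/-- THE MIRROR OF THE 20-WORD ABSORBER: only the T-cycle of `((Q))R` is new, it contains `S((Q))B` and none of the other words. -/
theorem gad20M_abs {R Q B S : BinaryTree Unit} (hR : Q.numNodes + R.numNodes + 2 = k)
    (hB : Q.numNodes + S.numNodes + B.numNodes + 2 = k)
    {w : ℕ → X k} (hw : ∀ i < 20, (w i).1 = w20M R Q B S i)
    (hinj : ∀ i < 20, ∀ j < 20, w i = w j → i = j) (h10 : TT.SameCycle (w 0) (w 10))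
    (hold : ∀ i < 20, i ≠ 0 → i ≠ 10 → ¬ TT.SameCycle (w 0) (w i)) :
    (gad20M w).Abs := by
  classical
  have hBm : ∀ x, x ∈ (gad20M w).B ↔ ∃ i < CertM.al.length, w i = x := by
    intro x
    change x ∈ (range 20).image w ↔ _
    rw [mem_image]
    constructor
    · rintro ⟨i, hi, rfl⟩
      exact ⟨i, mem_range.1 hi, rfl⟩
    · rintro ⟨i, hi, rfl⟩
      exact ⟨i, mem_range.2 hi, rfl⟩
  have hbit : ∀ i : ℕ, Abs.bit CertM.F_0 i = true ↔ (i = 0 ∨ i = 10) := by
    intro i
    rw [Abs.bit_eq]
    constructor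
    · intro h
      have h20 : i < 11 := by
        by_contra h2
        have h3 : CertM.F_0 < 2 ^ i := lt_of_lt_of_le (by decide)
          (Nat.pow_le_pow_right (by norm_num) (show 11 ≤ i by omega))
        rw [Nat.testBit_lt_two_pow h3] at h
        exact absurd h (by simp)
      interval_cases i <;> first | (left; rfl) | (right; rfl) | (exact absurd h (by decide))
    · rintro (rfl | rfl) <;> decide
  have hFi : ∀ i < 20, (w i ∈ (gad20M w).F ↔ (i = 0 ∨ i = 10)) := by
    intro i hi
    change TT.SameCycle (w 0) (w i) ↔ _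
    constructor
    · intro h
      by_contra h2
      push Not at h2
      exact hold i hi h2.1 h2.2 h
    · rintro (rfl | rfl)
      · exact Perm.SameCycle.refl _ _
      · exact h10
  have hne : w 0 ≠ w 10 := by
    intro h
    have := hinj 0 (by norm_num) 10 (by norm_num) h
    omega
  have hin : ∀ x ∈ (gad20M w).B, TT.SameCycle (w 0) x → x = w 0 ∨ x = w 10 := by
    intro x hx hs
    obtain ⟨j, hj, rfl⟩ := (hBm x).1 hx
    have hj' : j < 20 := hj
    by_contra h2
    push Not at h2
    refine hold j hj' ?_ ?_ hs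
    · rintro rfl
      exact h2.1 rfl
    · rintro rfl
      exact h2.2 rfl
  apply Abs.cert_abs (gad20M w) w (fun i => ((s20M R.numNodes B.numNodes S.numNodes i : ℕ) : ZMod (2 * k + 1)))
    CertM.A CertM.F_0 CertM.Z_0 CertM.x0_0 CertM.z0_0 CertM.cF_0 CertM.al CertM.code_0 hBm
  · intro i hi j hj h
    exact hinj i hi j hj h
  · intro i hi
    rw [hFi i hi, hbit]
  · intro i h
    rw [hbit] at h
    change i < 20
    omega
  · intro x y hxy hx
    exact Perm.SameCycle.trans hx hxy
  · intro i hi hd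
    have hi' : i < 20 := hi
    change (w i, w (Abs.dig CertM.A i)) ∈ ({(w 10, w 0), (w 11, w 1), (w 12, w 3), (w 15, w 6),
      (w 14, w 8), (w 17, w 9)} : Set (X k × X k))
    have hd' : Abs.dig CertM.A i < 20 := hd
    interval_cases i
    · exact absurd hd' (by decide)
    · exact absurd hd' (by decide)
    · exact absurd hd' (by decide)
    · exact absurd hd' (by decide)
    · exact absurd hd' (by decide)
    · exact absurd hd' (by decide)
    · exact absurd hd' (by decide)
    · exact absurd hd' (by decide)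
    · exact absurd hd' (by decide)
    · exact absurd hd' (by decide)
    · exact Or.inl rfl
    · exact Or.inr (Or.inl rfl)
    · exact Or.inr (Or.inr (Or.inl rfl))
    · exact absurd hd' (by decide)
    · exact Or.inr (Or.inr (Or.inr (Or.inr (Or.inl rfl))))
    · exact Or.inr (Or.inr (Or.inr (Or.inl rfl)))
    · exact absurd hd' (by decide)
    · exact Or.inr (Or.inr (Or.inr (Or.inr (Or.inr rfl))))
    · exact absurd hd' (by decide)
    · exact absurd hd' (by decide)
  · intro i h
    rw [hbit] at h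
    rcases h with rfl | rfl
    · refine ⟨by decide, ?_⟩
      change FR TT (gad20M w).B (w 0) (w 10)
      exact FR_pair TT _ _ _ ((hBm _).2 ⟨10, by decide, rfl⟩) hne h10 hin
    · refine ⟨by decide, ?_⟩
      change FR TT (gad20M w).B (w 10) (w 0)
      refine FR_pair TT _ _ _ ((hBm _).2 ⟨0, by decide, rfl⟩) hne.symm h10.symm ?_
      intro x hx hs
      exact (hin x hx (h10.trans hs)).symm
  · exact hfr20M hR hB hw
  · decide
  · decide
  · decide
  · exact CertM.run20M

end Pool.OddHC
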