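import Pool.Agent.Work.MP_8f87b2_base.Gad9
import Pool.Agent.Work.MP_8f87b2_h24.Cert9M

/-!
MP_8f87b2_co, base: the mirror of the 9-word pair gadget with its real words absorbs.
-/

namespace Pool.OddHC

open Finset BinaryTree Equiv

variable {k : ℕ}

/-- the nine words: `(())R`, `R(())`, `(R())`, `((R))`, `(()R)`, `()(R)`, `(X)`, `()X`, `X()` -/
def w9M (R X : BinaryTree Unit) : ℕ → BinaryTree Unit
  | 0 => w1 .nil (w1 .nil .nil .nil) R
  | 1 => w1 R (w1 .nil .nil .nil) .nil
  | 2 => w1 .nil (w1 R .nil .nil) .nil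
  | 3 => w1 .nil (w1 .nil R .nil) .nil
  | 4 => w1 .nil (w1 .nil .nil R) .nil
  | 5 => w1 .nil .nil (w1 .nil R .nil)
  | 6 => w1 .nil X .nil
  | 7 => w1 .nil .nil X
  | _ => w1 X .nil .nil

/-- the 9-word gadget -/
noncomputable def gad9M (w : ℕ → X k) : DG k := by
  classical
  exact
    { B := (range 9).image w
      F := {x | TT.SameCycle (w 0) x ∨ TT.SameCycle (w 1) x}
      arcs := {(w 6, w 3), (w 7, w 4), (w 8, w 5)} }

/-- index in the block -/
def ix9M : ℕ → ℕ
  | 0 => 4
  | 1 => 0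
  | 2 => 3
  | 3 => 9
  | 4 => 7
  | _ => 8

/-- index in the triple -/
def jx9M : ℕ → ℕ
  | 6 => 0
  | 7 => 2
  | _ => 1

theorem jx9M_lt (i : ℕ) : jx9M i < 3 := by
  unfold jx9M
  split <;> omega

/-- star positions -/
def s9M (x : ℕ) (i : ℕ) : ℕ := if i < 6 then bs 0 0 0 0 (ix9M i) else ts 0 x (jx9M i)

theorem al9M_cases : ∀ i j : Fin 9, Abs.bit (Cert9M.al.getD i.1 0) j.1 = true →
    (i.1 < 6 ∧ j.1 < 6 ∧ Abs.bit (bal.getD (ix9M i.1) 0) (ix9M j.1) = true) ∨
      (6 ≤ i.1 ∧ 6 ≤ j.1 ∧ Abs.bit (tal.getD (jx9M i.1) 0) (jx9M j.1) = true) := by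
  decide

theorem w9M_block (R X : BinaryTree Unit) {i : ℕ} (hi : i < 6) :
    w9M R X i = bw .nil .nil .nil .nil R (ix9M i) := by
  interval_cases i <;> rfl

theorem w9M_triple (R X : BinaryTree Unit) {i : ℕ} (hi : i < 9) (h6 : 6 ≤ i) :
    w9M R X i = tw .nil X .nil (jx9M i) := by
  interval_cases i <;> rfl

theorem ix9M_lt (i : ℕ) : ix9M i < 10 := by
  unfold ix9M
  split <;> omega

theorem hfr9M {R X' : BinaryTree Unit} (hR : R.numNodes + 2 = k) (hX : X'.numNodes + 1 = k)
    {w : ℕ → X k} (hw : ∀ i < 9, (w i).1 = w9M R X' i) :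
    ∀ i < Cert9M.al.length, ∀ j < Cert9M.al.length, Abs.bit (Cert9M.al.getD i 0) j = true →
      io (w i) ((s9M X'.numNodes i : ℕ) : ZMod (2 * k + 1)) ⊆
        insert ((s9M X'.numNodes j : ℕ) : ZMod (2 * k + 1))
          (io (w j) ((s9M X'.numNodes j : ℕ) : ZMod (2 * k + 1))) := by
  intro i hi j hj hb
  have hi9 : i < 9 := hi
  have hj9 : j < 9 := hj
  rcases al9M_cases ⟨i, hi9⟩ ⟨j, hj9⟩ hb with ⟨h1, h2, h3⟩ | ⟨h1, h2, h3⟩
  · have h1' : i < 6 := h1
    have h2' : j < 6 := h2
    have h4 := block_al (k := k) .nil .nil .nil .nil R (by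
      change 0 + 0 + 0 + 0 + R.numNodes + 2 = k
      omega) (ix9M_lt i) (ix9M_lt j) (by rw [hw i hi9, w9M_block R X' h1'])
      (by rw [hw j hj9, w9M_block R X' h2']) h3 0
    unfold s9M
    rw [if_pos h1', if_pos h2']
    rw [zero_add, zero_add] at h4
    exact h4
  · have h1' : 6 ≤ i := h1
    have h2' : 6 ≤ j := h2
    have h4 := triple_al (k := k) .nil X' .nil (by
      change 0 + X'.numNodes + 0 + 1 = k
      omega) (jx9M_lt i) (jx9M_lt j)
      (by rw [hw i hi9, w9M_triple R X' hi9 h1'])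
      (by rw [hw j hj9, w9M_triple R X' hj9 h2']) h3 0
    unfold s9M
    rw [if_neg (by omega), if_neg (by omega)]
    rw [zero_add, zero_add] at h4
    exact h4

/-- THE MIRROR OF THE 9-WORD PAIR GADGET ABSORBS: `(())R`, `R(())` are new, the other seven words are on other T-cycles. -/
theorem gad9M_abs {R X' : BinaryTree Unit} (hR : R.numNodes + 2 = k) (hX : X'.numNodes + 1 = k)
    {w : ℕ → X k} (hw : ∀ i < 9, (w i).1 = w9M R X' i)
    (hinj : ∀ i < 9, ∀ j < 9, w i = w j → i = j) (h01 : ¬ TT.SameCycle (w 0) (w 1))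
    (hold : ∀ i, 2 ≤ i → i < 9 → ¬ TT.SameCycle (w 0) (w i) ∧ ¬ TT.SameCycle (w 1) (w i)) :
    (gad9M w).Abs := by
  classical
  have hBm : ∀ x, x ∈ (gad9M w).B ↔ ∃ i < Cert9M.al.length, w i = x := by
    intro x
    change x ∈ (range 9).image w ↔ _
    rw [mem_image]
    constructor
    · rintro ⟨i, hi, rfl⟩
      exact ⟨i, mem_range.1 hi, rfl⟩
    · rintro ⟨i, hi, rfl⟩
      exact ⟨i, mem_range.2 hi, rfl⟩
  have hFi : ∀ i < 9, (w i ∈ (gad9M w).F ↔ i < 2) := by
    intro i hi
    change (TT.SameCycle (w 0) (w i) ∨ TT.SameCycle (w 1) (w i)) ↔ _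
    constructor
    · intro h
      by_contra h2
      have h3 := hold i (by omega) hi
      rcases h with h | h
      · exact h3.1 h
      · exact h3.2 h
    · intro h
      interval_cases i
      · exact Or.inl (Perm.SameCycle.refl _ _)
      · exact Or.inr (Perm.SameCycle.refl _ _)
  have hbit : ∀ i : ℕ, Abs.bit Cert9M.F i = decide (i < 2) := by
    intro i
    rw [Abs.bit_eq]
    have : Cert9M.F = 2 ^ 2 - 1 := rfl
    rw [this, Nat.testBit_two_pow_sub_one]
  apply Abs.cert_abs (gad9M w) w (fun i => ((s9M X'.numNodes i : ℕ) : ZMod (2 * k + 1))) Cert9M.A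
    Cert9M.F Cert9M.Z 2 0 2 Cert9M.al Cert9M.code hBm
  · intro i hi j hj h
    exact hinj i hi j hj h
  · intro i hi
    rw [hFi i hi, hbit, decide_eq_true_iff]
  · intro i h
    rw [hbit, decide_eq_true_iff] at h
    change i < 9
    omega
  · intro x y hxy hx
    rcases hx with hx | hx
    · exact Or.inl (hx.trans hxy)
    · exact Or.inr (hx.trans hxy)
  · intro i hi hd
    have hi9 : i < 9 := hi
    change (w i, w (Abs.dig Cert9M.A i)) ∈ ({(w 6, w 3), (w 7, w 4), (w 8, w 5)} : Set (X k × X k))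
    have hd' : Abs.dig Cert9M.A i < 9 := hd
    interval_cases i
    · exact absurd hd' (by decide)
    · exact absurd hd' (by decide)
    · exact absurd hd' (by decide)
    · exact absurd hd' (by decide)
    · exact absurd hd' (by decide)
    · exact absurd hd' (by decide)
    · exact Or.inl rfl
    · exact Or.inr (Or.inl rfl)
    · exact Or.inr (Or.inr rfl)
  · intro i h
    rw [hbit, decide_eq_true_iff] at h
    interval_cases i
    · refine ⟨by decide, ?_⟩
      change FR TT (gad9M w).B (w 0) (w 0)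
      apply FR_self
      intro v hv hs
      obtain ⟨j, hj, rfl⟩ := (hBm v).1 hv
      have hj9 : j < 9 := hj
      rcases Nat.lt_or_ge j 2 with h2 | h2
      · interval_cases j
        · rfl
        · exact absurd hs h01
      · exact absurd hs (hold j h2 hj9).1
    · refine ⟨by decide, ?_⟩
      change FR TT (gad9M w).B (w 1) (w 1)
      apply FR_self
      intro v hv hs
      obtain ⟨j, hj, rfl⟩ := (hBm v).1 hv
      have hj9 : j < 9 := hj
      rcases Nat.lt_or_ge j 2 with h2 | h2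
      · interval_cases j
        · exact absurd hs.symm h01
        · rfl
      · exact absurd hs (hold j h2 hj9).2
  · exact hfr9M hR hX hw
  · decide
  · decide
  · decide
  · exact Cert9M.run9

end Pool.OddHC
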