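import Pool.Agent.Work.MP_8f87b2_base.Cyc

/-!
MP_8f87b2_co, base: good clusters (helper91) and Rule 1: two arcs in the same direction join two good clusters.

`A` = words of the cluster, `P` = the toggles (even permutations of `A`), `I` = the inner arcs. The cluster is good if for
every permutation `g` with the inner arcs some toggle `π` leaves at most two cycles of `g * π` on `A`.
-/

namespace Pool.OddHC

open Finset Equiv

variable {W : Type*} [Fintype W] [DecidableEq W]

/-- good clusters -/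
structure Good (A : Finset W) (P : Set (Perm W)) (I : Set (W × W)) : Prop where
  dom : ∀ p ∈ I, p.1 ∈ A ∧ p.2 ∈ A
  supp : ∀ π ∈ P, ∀ w, w ∉ A → π w = w
  even : ∀ π ∈ P, Perm.sign π = 1
  good : ∀ g : Perm W, (∀ p ∈ I, g p.1 = p.2) → ∃ π ∈ P, cy (g * π) A ≤ 2

omit [Fintype W] [DecidableEq W] in
theorem pai (f : Perm W) (x : W) : f (f⁻¹ x) = x := by
  rw [← Perm.mul_apply, mul_inv_cancel, Perm.one_apply]

omit [Fintype W] [DecidableEq W] in
/-- a permutation with support in `A` preserves `A` -/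
theorem mem_of_supp {A : Finset W} {π : Perm W} (h : ∀ w, w ∉ A → π w = w) {w : W} :
    π w ∈ A ↔ w ∈ A := by
  constructor
  · intro hw
    by_contra hn
    rw [h w hn] at hw
    exact hn hw
  · intro hw
    by_contra hn
    have := h _ hn
    have h2 := π.injective this
    rw [h2] at hn
    exact hn hw

omit [Fintype W] [DecidableEq W] in
theorem commute_of_disjoint {A A' : Finset W} (hd : Disjoint A A') {a b : Perm W}
    (ha : ∀ w, w ∉ A → a w = w) (hb : ∀ w, w ∉ A' → b w = w) : a * b = b * a := by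
  ext w
  rw [Perm.mul_apply, Perm.mul_apply]
  by_cases hw : w ∈ A
  · have h1 : w ∉ A' := fun h => (disjoint_left.1 hd) hw h
    have h2 : a w ∉ A' := fun h => (disjoint_left.1 hd) ((mem_of_supp ha).2 hw) h
    rw [hb w h1, hb _ h2]
  · by_cases hw' : w ∈ A'
    · have h2 : b w ∉ A := fun h => (disjoint_left.1 hd) h ((mem_of_supp hb).2 hw')
      rw [ha w hw, ha _ h2]
    · rw [ha w hw, hb w hw', ha w hw]

/-- the first part of the proof: the two ends of the arcs can be put in different cycles -/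
theorem Good.separate {A : Finset W} {P : Set (Perm W)} {I : Set (W × W)} (h : Good A P I)
    {g : Perm W} (hI : ∀ p ∈ I, g p.1 = p.2) {w1 w2 : W} (hw1 : w1 ∈ A) (hw2 : w2 ∈ A)
    (hne : w1 ≠ w2) (hf1 : g w1 ∉ A) (hf2 : g w2 ∉ A) {π : Perm W} (hπ : π ∈ P)
    (h2 : cy (g * π) A = 2) :
    ∃ σ ∈ P, ¬ (g * σ).SameCycle (g w1) (g w2) ∧
      ∀ x ∈ A, (g * σ).SameCycle x (g w1) ∨ (g * σ).SameCycle x (g w2) := by
  obtain ⟨σ, hσ, hc⟩ := h.good (g * swap w1 w2) (by
    intro p hp
    have h3 := h.dom p hp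
    have h4 : p.1 ≠ w1 := by
      intro he
      apply hf1
      rw [← he, hI p hp]
      exact h3.2
    have h5 : p.1 ≠ w2 := by
      intro he
      apply hf2
      rw [← he, hI p hp]
      exact h3.2
    rw [swap_off h4 h5, hI p hp])
  -- parity
  have hag : ∀ w, w ∉ A → (g * swap w1 w2 * σ) w = (g * π) w := by
    intro w hw
    have h3 : w ≠ w1 := by rintro rfl; exact hw hw1
    have h4 : w ≠ w2 := by rintro rfl; exact hw hw2
    rw [Perm.mul_apply, h.supp σ hσ w hw, swap_off h3 h4, Perm.mul_apply, h.supp π hπ w hw]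
  have hpar := cy_parity hag
  rw [Perm.sign_mul, Perm.sign_mul, Perm.sign_mul, Perm.sign_swap hne, h.even σ hσ,
    h.even π hπ, h2, mul_one, mul_one] at hpar
  have hodd : cy (g * swap w1 w2 * σ) A = 1 := by
    have h0 : 0 < cy (g * swap w1 w2 * σ) A :=
      card_pos.2 ⟨_, mem_image_of_mem _ hw1⟩
    have h3 : cy (g * swap w1 w2 * σ) A = 1 ∨ cy (g * swap w1 w2 * σ) A = 2 := by omega
    rcases h3 with h3 | h3
    · exact h3
    · exfalso
      rw [h3] at hpar
      have h4 : ((-1 : ℤˣ)) ^ (2 + 2) = 1 := by decide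
      rw [h4, mul_one] at hpar
      have h5 : (-1 : ℤˣ) = 1 := by
        have := congrArg (fun z => (Perm.sign g)⁻¹ * z) hpar
        simp at this
      exact absurd h5 (by decide)
  -- one cycle
  have hone : ∀ x ∈ A, ∀ y ∈ A, (g * swap w1 w2 * σ).SameCycle x y := by
    intro x hx y hy
    unfold cy at hodd
    rw [card_eq_one] at hodd
    obtain ⟨O, hO⟩ := hodd
    have h3 : orb (g * swap w1 w2 * σ) x ∈ ({O} : Finset (Finset W)) := by
      rw [← hO]; exact mem_image_of_mem _ hx
    have h4 : orb (g * swap w1 w2 * σ) y ∈ ({O} : Finset (Finset W)) := by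
      rw [← hO]; exact mem_image_of_mem _ hy
    rw [mem_singleton] at h3 h4
    exact orb_eq_iff.1 (h3.trans h4.symm)
  -- conjugate
  have hs : ∀ w, w ∉ A → σ w = w := h.supp σ hσ
  have hs' : ∀ w, w ∉ A → σ⁻¹ w = w := by
    intro w hw
    rw [Perm.inv_eq_iff_eq]
    exact (hs w hw).symm
  have hu1 : σ⁻¹ w1 ∈ A := (mem_of_supp hs').2 hw1
  have hu2 : σ⁻¹ w2 ∈ A := (mem_of_supp hs').2 hw2
  have hune : σ⁻¹ w1 ≠ σ⁻¹ w2 := fun he => hne (σ⁻¹.injective he)
  have hconj : g * swap w1 w2 * σ * swap (σ⁻¹ w1) (σ⁻¹ w2) = g * σ := by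
    have h3 : σ * swap (σ⁻¹ w1) (σ⁻¹ w2) = swap w1 w2 * σ := by
      have h4 := mul_swap_eq_swap_mul σ (σ⁻¹ w1) (σ⁻¹ w2)
      rw [h4, pai, pai]
    rw [mul_assoc (g * swap w1 w2), h3, mul_assoc g, ← mul_assoc (swap w1 w2),
      swap_mul_self, one_mul]
  have hsp := swap_split hune (hone _ hu1 _ hu2)
  rw [hconj] at hsp
  have hg1 : (g * σ) (σ⁻¹ w1) = g w1 := by rw [Perm.mul_apply, pai]
  have hg2 : (g * σ) (σ⁻¹ w2) = g w2 := by rw [Perm.mul_apply, pai]
  have hc1 : (g * σ).SameCycle (σ⁻¹ w1) (g w1) := by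
    rw [← hg1]
    exact nat_same 1 (by rw [pow_one])
  have hc2 : (g * σ).SameCycle (σ⁻¹ w2) (g w2) := by
    rw [← hg2]
    exact nat_same 1 (by rw [pow_one])
  refine ⟨σ, hσ, ?_, ?_⟩
  · intro hc3
    exact hsp ((hc1.trans hc3).trans hc2.symm)
  · intro x hx
    have h3 := swap_reach (v := σ⁻¹ w2) (Or.inl (hone x hx _ hu1))
    rw [hconj] at h3
    rcases h3 with h3 | h3
    · exact Or.inl (h3.trans hc1)
    · exact Or.inr (h3.trans hc2)

/-- the toggles of the union -/
def tog (P P' : Set (Perm W)) : Set (Perm W) := {π | ∃ a ∈ P, ∃ b ∈ P', π = a * b}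

/-- RULE 1 -/
theorem Good.union {A A' : Finset W} {P P' : Set (Perm W)} {I I' : Set (W × W)}
    (h : Good A P I) (h' : Good A' P' I') (hd : Disjoint A A') {w1 w2 v1 v2 : W}
    (hw1 : w1 ∈ A) (hw2 : w2 ∈ A) (hv1 : v1 ∈ A') (hv2 : v2 ∈ A') (hne : w1 ≠ w2) :
    Good (A ∪ A') (tog P P') (I ∪ I' ∪ {(w1, v1), (w2, v2)}) where
  dom := by
    rintro p ((hp | hp) | hp)
    · have := h.dom p hp
      exact ⟨mem_union_left _ this.1, mem_union_left _ this.2⟩
    · have := h'.dom p hp
      exact ⟨mem_union_right _ this.1, mem_union_right _ this.2⟩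
    · rcases hp with rfl | hp
      · exact ⟨mem_union_left _ hw1, mem_union_right _ hv1⟩
      · rw [Set.mem_singleton_iff] at hp
        subst hp
        exact ⟨mem_union_left _ hw2, mem_union_right _ hv2⟩
  supp := by
    rintro π ⟨a, ha, b, hb, rfl⟩ w hw
    rw [mem_union, not_or] at hw
    rw [Perm.mul_apply, h'.supp b hb w hw.2, h.supp a ha w hw.1]
  even := by
    rintro π ⟨a, ha, b, hb, rfl⟩
    rw [Perm.sign_mul, h.even a ha, h'.even b hb, one_mul]
  good := by
    classical
    intro g hg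
    have hgI : ∀ p ∈ I, g p.1 = p.2 := fun p hp => hg p (Or.inl (Or.inl hp))
    have hgI' : ∀ p ∈ I', g p.1 = p.2 := fun p hp => hg p (Or.inl (Or.inr hp))
    have hg1 : g w1 = v1 := hg (w1, v1) (Or.inr (Or.inl rfl))
    have hg2 : g w2 = v2 := hg (w2, v2) (Or.inr (Or.inr rfl))
    have hv1A : v1 ∉ A := fun hv => (disjoint_left.1 hd) hv hv1
    have hv2A : v2 ∉ A := fun hv => (disjoint_left.1 hd) hv hv2
    -- arcs are kept when the other part is toggled
    have keep : ∀ b ∈ P', ∀ p ∈ I, (g * b) p.1 = p.2 := by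
      intro b hb p hp
      rw [Perm.mul_apply, h'.supp b hb p.1 (fun hx => (disjoint_left.1 hd) (h.dom p hp).1 hx)]
      exact hgI p hp
    have keep' : ∀ a ∈ P, ∀ p ∈ I', (g * a) p.1 = p.2 := by
      intro a ha p hp
      rw [Perm.mul_apply, h.supp a ha p.1 (fun hx => (disjoint_left.1 hd) hx (h'.dom p hp).1)]
      exact hgI' p hp
    have comm : ∀ a ∈ P, ∀ b ∈ P', a * b = b * a := fun a ha b hb =>
      commute_of_disjoint hd (h.supp a ha) (h'.supp b hb)
    -- minimum
    obtain ⟨a0, ha0, -⟩ := h.good g hgI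
    obtain ⟨b0, hb0, -⟩ := h'.good g hgI'
    obtain ⟨⟨a, b⟩, hab, hmin⟩ := Set.exists_min_image (P ×ˢ P')
      (fun x => cy (g * (x.1 * x.2)) (A ∪ A')) (Set.toFinite _) ⟨(a0, b0), ha0, hb0⟩
    have ha : a ∈ P := hab.1
    have hb : b ∈ P' := hab.2
    by_contra hno
    push Not at hno
    have hbig : ∀ a ∈ P, ∀ b ∈ P', 2 < cy (g * (a * b)) (A ∪ A') := fun a ha b hb =>
      hno (a * b) ⟨a, ha, b, hb, rfl⟩
    -- at most two cycles on A
    have hA2 : cy (g * (a * b)) A ≤ 2 := by
      obtain ⟨a1, ha1, hc⟩ := h.good (g * b) (keep b hb)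
      have hag : ∀ w, w ∉ A → (g * (a1 * b)) w = (g * (a * b)) w := by
        intro w hw
        rw [comm a1 ha1 b hb, comm a ha b hb, Perm.mul_apply, Perm.mul_apply, Perm.mul_apply,
          Perm.mul_apply, h.supp a1 ha1 w hw, h.supp a ha w hw]
      have h1 := hmin (a1, b) ⟨ha1, hb⟩
      simp only at h1
      rw [cy_union, cy_union, cyx_congr A' hag] at h1
      have e1 : g * b * a1 = g * (a1 * b) := by rw [comm a1 ha1 b hb, mul_assoc]
      rw [e1] at hc
      omega
    have hA'1 : cyx (g * (a * b)) A' A ≤ 1 := by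
      -- at most two cycles on A'
      have hA'2 : cy (g * (a * b)) A' ≤ 2 := by
        obtain ⟨b1, hb1, hc⟩ := h'.good (g * a) (keep' a ha)
        have hag : ∀ w, w ∉ A' → (g * (a * b1)) w = (g * (a * b)) w := by
          intro w hw
          rw [Perm.mul_apply, Perm.mul_apply, Perm.mul_apply, Perm.mul_apply,
            h'.supp b1 hb1 w hw, h'.supp b hb w hw]
        have h1 := hmin (a, b1) ⟨ha, hb1⟩
        simp only at h1
        rw [union_comm, cy_union, cy_union, cyx_congr A hag] at h1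
        rw [mul_assoc] at hc
        omega
      have hsub : ((A'.image (orb (g * (a * b)))) \ (A.image (orb (g * (a * b))))) ⊆
          (A'.image (orb (g * (a * b)))).erase (orb (g * (a * b)) v1) := by
        intro O hO
        rw [mem_sdiff] at hO
        rw [mem_erase]
        refine ⟨?_, hO.1⟩
        rintro rfl
        apply hO.2
        have hbw : b⁻¹ (a⁻¹ w1) = a⁻¹ w1 := by
          rw [Perm.inv_eq_iff_eq]
          symm
          apply h'.supp b hb
          intro hx
          have hs' : ∀ w, w ∉ A → a⁻¹ w = w := by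
            intro w hw
            rw [Perm.inv_eq_iff_eq]
            exact (h.supp a ha w hw).symm
          exact (disjoint_left.1 hd) ((mem_of_supp hs').2 hw1) hx
        have hs' : ∀ w, w ∉ A → a⁻¹ w = w := by
          intro w hw
          rw [Perm.inv_eq_iff_eq]
          exact (h.supp a ha w hw).symm
        rw [mem_image]
        refine ⟨a⁻¹ w1, (mem_of_supp hs').2 hw1, ?_⟩
        rw [orb_eq_iff]
        apply nat_same 1
        rw [pow_one, Perm.mul_apply, Perm.mul_apply]
        have hbw2 : b (a⁻¹ w1) = a⁻¹ w1 := by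
          rw [Perm.inv_eq_iff_eq] at hbw
          exact hbw.symm
        rw [hbw2, pai, hg1]
      have h1 := card_le_card hsub
      rw [card_erase_of_mem (mem_image_of_mem _ hv1)] at h1
      unfold cyx
      unfold cy at hA'2
      omega
    have htot := hbig a ha b hb
    rw [cy_union] at htot
    have hA22 : cy (g * (a * b)) A = 2 := by omega
    -- separate
    have hgb1 : (g * b) w1 = v1 := by
      rw [Perm.mul_apply, h'.supp b hb w1 (fun hx => (disjoint_left.1 hd) hw1 hx), hg1]
    have hgb2 : (g * b) w2 = v2 := by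
      rw [Perm.mul_apply, h'.supp b hb w2 (fun hx => (disjoint_left.1 hd) hw2 hx), hg2]
    have hA22' : cy (g * b * a) A = 2 := by
      rw [mul_assoc, ← comm a ha b hb]
      exact hA22
    obtain ⟨σ, hσ, _, hall⟩ := h.separate (keep b hb) hw1 hw2 hne (by rw [hgb1]; exact hv1A)
      (by rw [hgb2]; exact hv2A) ha hA22'
    rw [hgb1, hgb2] at hall
    -- toggle the second part
    obtain ⟨b1, hb1, hc⟩ := h'.good (g * σ) (keep' σ hσ)
    have h0 : cyx (g * b * σ) A A' = 0 := by
      unfold cyx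
      rw [card_eq_zero, sdiff_eq_empty_iff_subset]
      intro O hO
      obtain ⟨x, hx, rfl⟩ := mem_image.1 hO
      rcases hall x hx with h1 | h1
      · exact mem_image.2 ⟨v1, hv1, (orb_eq_iff.2 h1).symm⟩
      · exact mem_image.2 ⟨v2, hv2, (orb_eq_iff.2 h1).symm⟩
    have hag : ∀ w, w ∉ A' → (g * σ * b1) w = (g * b * σ) w := by
      intro w hw
      rw [mul_assoc g b σ, ← comm σ hσ b hb, ← mul_assoc, Perm.mul_apply, Perm.mul_apply (g * σ),
        h'.supp b1 hb1 w hw, h'.supp b hb w hw]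
    have h1 : cy (g * (σ * b1)) (A ∪ A') ≤ 2 := by
      rw [← mul_assoc, union_comm, cy_union, cyx_congr A hag, h0]
      omega
    have h2 := hbig σ hσ b1 hb1
    omega

end Pool.OddHC
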