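import Pool.Agent.Work.MP_8f87b2_base.TV
import Pool.Agent.Work.MP_8f87b2_base.Rule1
import Pool.Agent.Work.MP_8f87b2_co.Reduce

/-!
MP_8f87b2_co, base: legal permutations of the Dyck words (`w ↦ π w` is legal if the vertex `w` is contained in the vertex
`π w`, in suitable position, together with its star); aligned blocks; the reduction: a legal permutation `π` with
`TT * π` one cycle gives `2 k + 1 ∈ compressionSet (oddGraph k)`.
-/

namespace Pool.OddHC

open Finset BinaryTree Equiv Pool.Agent.Work.MP_8f87b2_co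

variable {k : ℕ}

/-- `w` in position `0` is contained in `u` in position `z`, together with the star of `u` -/
def Le (w u : X k) (z : ZMod (2 * k + 1)) : Prop := io w 0 ⊆ insert z (io u z)

theorem Le.shift {w u : X k} {z : ZMod (2 * k + 1)} (h : Le w u z) (s : ZMod (2 * k + 1)) :
    io w s ⊆ insert (s + z) (io u (s + z)) := by
  intro j hj
  have h1 : io w s = (io w 0).image (fun j => j + s) := by rw [← io_shift, zero_add]
  rw [h1, mem_image] at hj
  obtain ⟨i, hi, rfl⟩ := hj
  have h2 := h hi
  rw [mem_insert] at h2 ⊢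
  rcases h2 with h2 | h2
  · left
    rw [h2]
    exact add_comm _ _
  · right
    rw [add_comm s z, io_shift, mem_image]
    exact ⟨i, h2, rfl⟩

theorem Le.refl (w : X k) : Le w w 0 := subset_insert _ _

/-- adjacency -/
theorem Le.disj {w u : X k} {z : ZMod (2 * k + 1)} (h : Le w u z) (s : ZMod (2 * k + 1)) :
    Disjoint (io w s) (io (TT u) (s + z + Vo u)) := by
  rw [TT_apply, TF_spec, disjoint_left]
  intro j h1 h2
  have h3 := h.shift s h1
  have h4 : j ∈ insert (s + z) (st (2 * k + 1) (cw u.1) (s + z)) := mem_insert_of_mem h2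
  rw [compl_cw, mem_sdiff] at h4
  rw [mem_insert] at h3
  rcases h3 with h3 | h3
  · rw [h3, mem_st, sub_self, ZMod.val_zero] at h2
    unfold cw at h2
    simp at h2
  · exact h4.2 h3

/-- legal permutations with their voltage change -/
def Legal (π : Perm (X k)) (z : X k → ZMod (2 * k + 1)) : Prop :=
  (∀ w, Le w (π w) (z w)) ∧ ∑ w, z w = 0

theorem legal_one : Legal (1 : Perm (X k)) (fun _ => 0) :=
  ⟨fun w => Le.refl w, by simp⟩

/-- an aligned block: a common frame, in which `w` has its star at `s w` -/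
theorem legal_of_frame {B : Finset (X k)} {π : Perm (X k)} {s : X k → ZMod (2 * k + 1)}
    (hB : ∀ w, w ∉ B → π w = w)
    (h : ∀ w ∈ B, io w (s w) ⊆ insert (s (π w)) (io (π w) (s (π w)))) :
    Legal π (fun w => s (π w) - s w) := by
  refine ⟨?_, ?_⟩
  · intro w
    by_cases hw : w ∈ B
    · have h1 := h w hw
      unfold Le
      intro j hj
      have h2 : j + s w ∈ io w (s w) := by
        have h3 : io w (s w) = (io w 0).image (fun j => j + s w) := by rw [← io_shift, zero_add]
        rw [h3, mem_image]
        exact ⟨j, hj, rfl⟩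
      have h4 := h1 h2
      rw [mem_insert] at h4 ⊢
      rcases h4 with h4 | h4
      · left
        change j = s (π w) - s w
        rw [← h4]
        ring
      · right
        have h5 : io (π w) (s (π w)) = (io (π w) (s (π w) - s w)).image (fun j => j + s w) := by
          rw [← io_shift]
          congr 1
          ring
        rw [h5, mem_image] at h4
        obtain ⟨i, hi, hij⟩ := h4
        rw [← add_right_cancel hij]
        exact hi
    · have h1 := hB w hw
      simp only [h1, sub_self]
      exact Le.refl w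
  · rw [sum_sub_distrib, Equiv.sum_comp π s, sub_self]

/-- disjoint legal permutations -/
theorem Legal.mul {B : Finset (X k)} {π ρ : Perm (X k)} {z y : X k → ZMod (2 * k + 1)}
    (hπ : ∀ w, w ∈ B → π w = w) (hz : ∀ w, w ∈ B → z w = 0)
    (hρ : ∀ w, w ∉ B → ρ w = w) (hy : ∀ w, w ∉ B → y w = 0)
    (h1 : Legal π z) (h2 : Legal ρ y) : Legal (π * ρ) (fun w => z w + y w) := by
  refine ⟨fun w => ?_, ?_⟩
  · change Le w ((π * ρ) w) (z w + y w)
    rw [Perm.mul_apply]
    by_cases hw : w ∈ B
    · have h3 : ρ w ∈ B := by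
        by_contra h4
        have h5 := hρ _ h4
        have h6 := ρ.injective h5
        rw [h6] at h4
        exact h4 hw
      rw [hπ _ h3, hz w hw, zero_add]
      exact h2.1 w
    · rw [hρ w hw, hy w hw, add_zero]
      exact h1.1 w
  · rw [sum_add_distrib, h1.2, h2.2, add_zero]

/-! ### The reduction -/

theorem pow_end {W : Type} [Fintype W] [DecidableEq W] (g : Perm W) (h : ∀ a b, g.SameCycle a b)
    (a : W) : (g ^ Fintype.card W) a = a ∧
      ∀ i j, i < Fintype.card W → j < Fintype.card W → (g ^ i) a = (g ^ j) a → i = j := by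
  have hc : g.IsCycleOn ((univ : Finset W) : Set W) :=
    ⟨by rw [coe_univ]; exact Set.bijOn_univ.2 g.bijective, fun x _ y _ => h x y⟩
  refine ⟨?_, ?_⟩
  · have := hc.pow_card_apply (mem_univ a)
    rwa [card_univ] at this
  · intro i j hi hj hij
    have := (hc.pow_apply_eq_pow_apply (mem_univ a)).1 hij
    rw [card_univ] at this
    exact Nat.ModEq.eq_of_lt_of_lt this hi hj

theorem sum_orbit {W M : Type} [Fintype W] [DecidableEq W] [AddCommMonoid M] (g : Perm W)
    (h : ∀ a b, g.SameCycle a b) (a : W) (f : W → M) :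
    ∑ i ∈ range (Fintype.card W), f ((g ^ i) a) = ∑ w, f w := by
  have h1 := (pow_end g h a).2
  have h2 : (range (Fintype.card W)).image (fun i => (g ^ i) a) = univ := by
    apply eq_univ_of_card
    rw [card_image_of_injOn, card_range]
    intro i hi j hj hij
    exact h1 i j (mem_range.1 hi) (mem_range.1 hj) hij
  rw [← h2, sum_image]
  intro i hi j hj hij
  exact h1 i j (mem_range.1 hi) (mem_range.1 hj) hij

/-- REDUCTION -/
theorem ham_of_legal (hk : 1 ≤ k) (π : Perm (X k)) (z : X k → ZMod (2 * k + 1))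
    (hleg : Legal π z) (hone : ∀ a b, (TT * π).SameCycle a b) :
    2 * k + 1 ∈ compressionSet (oddGraph k) := by
  classical
  have hpos : 0 < Fintype.card (X k) := by
    rw [X_card]
    have h1 := cat_choose k
    have h2 : 0 < (2 * k + 1).choose k := Nat.choose_pos (by omega)
    rcases Nat.eq_zero_or_pos (catalan k) with h | h
    · rw [h, zero_mul] at h1
      omega
    · exact h
  obtain ⟨a⟩ : Nonempty (X k) := Fintype.card_pos_iff.1 hpos
  obtain ⟨g, hg⟩ : ∃ g : Perm (X k), g = TT * π := ⟨_, rfl⟩
  rw [← hg] at hone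
  obtain ⟨F, hF⟩ : ∃ F : X k → ZMod (2 * k + 1), F = fun w => z w + Vo (π w) := ⟨_, rfl⟩
  obtain ⟨S, hS⟩ : ∃ S : ℕ → ZMod (2 * k + 1), S = fun i => ∑ j ∈ range i, F ((g ^ j) a) :=
    ⟨_, rfl⟩
  have hSS : ∀ i, S (i + 1) = S i + F ((g ^ i) a) := by
    intro i
    rw [hS]
    simp only
    rw [sum_range_succ]
  have hsum : S (Fintype.card (X k)) = -(2 : ZMod (2 * k + 1)) ^ (2 * k + 1) := by
    rw [hS]
    simp only
    rw [sum_orbit g hone a F, hF, sum_add_distrib, hleg.2, zero_add,
      Equiv.sum_comp π (fun w => Vo w), sum_Vo]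
  obtain ⟨he, hi⟩ := pow_end g hone a
  have hshift : ∀ (t : ZMod (2 * k + 1)) (x : X k) (s : ZMod (2 * k + 1)),
      shift k t ⟨io x s, io_card x s⟩ = ⟨io x (s + t), io_card x (s + t)⟩ := by
    intro t x s
    apply Subtype.ext
    ext j
    rw [mem_shift]
    simp only
    rw [io_shift, mem_image]
    constructor
    · intro h
      exact ⟨j - t, h, by ring⟩
    · rintro ⟨i, hi, rfl⟩
      have : i + t - t = i := by ring
      rw [this]
      exact hi
  apply lower_of_seq (M := Fintype.card (X k)) hk (fun i => ⟨io ((g ^ i) a) (S i), io_card _ _⟩)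
    (-(2 : ZMod (2 * k + 1)) ^ (2 * k + 1)) (unit_pow k)
  · intro i _
    have h1 : Disjoint (io ((g ^ i) a) (S i)) (io ((g ^ (i + 1)) a) (S (i + 1))) := by
      have h2 := (hleg.1 ((g ^ i) a)).disj (S i)
      have h3 : (g ^ (i + 1)) a = TT (π ((g ^ i) a)) := by
        rw [pow_succ', Perm.mul_apply]
        nth_rewrite 1 [hg]
        rw [Perm.mul_apply]
      have h4 : S (i + 1) = S i + z ((g ^ i) a) + Vo (π ((g ^ i) a)) := by
        rw [hSS, hF]
        ring
      rw [h3, h4]
      exact h2
    refine ⟨?_, h1⟩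
    intro h2
    have h3 := congrArg Subtype.val h2
    simp only at h3
    rw [← h3] at h1
    have h4 : io ((g ^ i) a) (S i) = ∅ := by
      rw [disjoint_self_iff_empty] at h1
      exact h1
    have h5 := io_card ((g ^ i) a) (S i)
    rw [h4, card_empty] at h5
    omega
  · rw [hshift]
    apply Subtype.ext
    simp only
    rw [he, pow_zero, Perm.one_apply, hsum]
    congr 1
    rw [hS]
    simp
  · intro i j hi' hj' t h1
    rw [hshift] at h1
    have h2 := congrArg Subtype.val h1
    simp only at h2
    obtain ⟨h3, h4⟩ := io_inj h2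
    have h5 := hi i j hi' hj' h3
    refine ⟨h5, ?_⟩
    rw [h5] at h4
    exact add_eq_left.1 h4
  · rw [X_card, cat_choose]

end Pool.OddHC
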