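import Pool.Agent.Work.MP_8f87b2_base.Word

/-!
MP_8f87b2_co, base: the `k`-subsets of `ZMod (2 k + 1)` are the pairs (Dyck word, position of the star); the permutation
`T` of the Dyck words (complement minus the star) and its voltage.
-/

namespace Pool.OddHC

open Finset BinaryTree

/-- the Dyck words of size `k` -/
abbrev X (k : ℕ) : Type := {t : BinaryTree Unit // t ∈ treesOfNumNodesEq k}

theorem X_card (k : ℕ) : Fintype.card (X k) = catalan k := by
  rw [Fintype.card_coe, treesOfNumNodesEq_card_eq_catalan]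

theorem X_num {k : ℕ} (t : X k) : t.1.numNodes = k := mem_treesOfNumNodesEq.1 t.2

theorem sl_len {k : ℕ} (t : X k) : (sl t.1).length = 2 * k + 1 := by
  rw [sl_length, X_num]

/-- the vertex of the odd graph: word `t`, star at `s` -/
def io {k : ℕ} (t : X k) (s : ZMod (2 * k + 1)) : Finset (ZMod (2 * k + 1)) :=
  st (2 * k + 1) (sl t.1) s

theorem io_card {k : ℕ} (t : X k) (s : ZMod (2 * k + 1)) : (io t s).card = k := by
  unfold io
  rw [st_card _ (sl_len t)]
  unfold sl
  rw [List.count_cons, (wd_counts t.1).1, X_num]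
  simp

theorem rot_of_st {n : ℕ} [NeZero n] {l l' : List Bool} (hl : l.length = n) (hl' : l'.length = n)
    {s s' : ZMod n} (h : st n l s = st n l' s') : l.rotate (s' - s).val = l' := by
  apply st_inj (s := s') (by rw [List.length_rotate, hl]) hl'
  rw [← h, ← st_rotate l hl s (s' - s).val, ZMod.natCast_zmod_val]
  congr 1
  ring

theorem io_inj {k : ℕ} {t t' : X k} {s s' : ZMod (2 * k + 1)} (h : io t s = io t' s') :
    t = t' ∧ s = s' := by
  have h1 := rot_of_st (sl_len t) (sl_len t') h
  have h2 := sl_rotate (by rw [sl_len t]; exact ZMod.val_lt _) h1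
  refine ⟨Subtype.ext h2.2, ?_⟩
  have h3 : s' - s = 0 := (ZMod.val_eq_zero _).1 h2.1
  rw [sub_eq_zero] at h3
  exact h3.symm

theorem cat_choose (k : ℕ) : catalan k * (2 * k + 1) = (2 * k + 1).choose k := by
  have h1 := succ_mul_catalan_eq_centralBinom k
  have h2 := Nat.add_one_mul_choose_eq (2 * k) k
  have h3 := Nat.choose_symm_half k
  rw [h3] at h2
  have h4 : (k + 1) * (catalan k * (2 * k + 1)) = (k + 1) * (2 * k + 1).choose k := by
    calc (k + 1) * (catalan k * (2 * k + 1)) = (2 * k + 1) * ((k + 1) * catalan k) := by ring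
      _ = (2 * k + 1) * (2 * k).choose k := by rw [h1]; rfl
      _ = (2 * k + 1).choose k * (k + 1) := h2
      _ = _ := by ring
  exact Nat.eq_of_mul_eq_mul_left (by omega) h4

theorem io_surj {k : ℕ} {A : Finset (ZMod (2 * k + 1))} (hA : A.card = k) :
    ∃ (t : X k) (s : ZMod (2 * k + 1)), io t s = A := by
  have h1 : (univ.image (fun x : X k × ZMod (2 * k + 1) => io x.1 x.2)) =
      powersetCard k (univ : Finset (ZMod (2 * k + 1))) := by
    apply eq_of_subset_of_card_le
    · intro B hB
      obtain ⟨x, -, rfl⟩ := mem_image.1 hB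
      exact mem_powersetCard.2 ⟨subset_univ _, io_card _ _⟩
    · rw [card_powersetCard, card_univ, ZMod.card, card_image_of_injective, card_univ,
        Fintype.card_prod, X_card, ZMod.card, cat_choose]
      intro x y hxy
      have := io_inj hxy
      exact Prod.ext this.1 this.2
  have h2 : A ∈ powersetCard k (univ : Finset (ZMod (2 * k + 1))) :=
    mem_powersetCard.2 ⟨subset_univ _, hA⟩
  rw [← h1] at h2
  obtain ⟨x, -, hx⟩ := mem_image.1 h2
  exact ⟨x.1, x.2, hx⟩

theorem io_shift {k : ℕ} (t : X k) (s c : ZMod (2 * k + 1)) :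
    io t (s + c) = (io t s).image (fun j => j + c) := st_shift _ _ _

/-! ### The complement -/

/-- the cyclic word of the complement without the star -/
def cw (t : BinaryTree Unit) : List Bool := (true :: wd t).map not

theorem cw_len {k : ℕ} (t : X k) : (cw t.1).length = 2 * k + 1 := by
  unfold cw
  rw [List.length_map, List.length_cons, wd_length, X_num]

theorem count_not (l : List Bool) : (l.map not).count true = l.count false := by
  induction l with
  | nil => rfl
  | cons a l ih =>
    rw [List.map_cons, List.count_cons, List.count_cons, ih]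
    cases a <;> rfl

theorem cw_card {k : ℕ} (t : X k) (s : ZMod (2 * k + 1)) :
    (st (2 * k + 1) (cw t.1) s).card = k := by
  rw [st_card _ (cw_len t)]
  unfold cw
  rw [count_not, List.count_cons, (wd_counts t.1).2, X_num]
  simp

/-- CYCLE LEMMA for the words which start with an up step -/
theorem tw_rotate {t t' : BinaryTree Unit} {r : ℕ} (hr : r < (true :: wd t).length)
    (h : (true :: wd t).rotate r = true :: wd t') : r = 0 ∧ t = t' := by
  rcases Nat.eq_zero_or_pos r with h0 | hp
  · subst h0
    rw [List.rotate_zero, List.cons.injEq] at h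
    exact ⟨rfl, sl_inj (by unfold sl; rw [h.2])⟩
  · exfalso
    rw [List.rotate_eq_drop_append_take hr.le] at h
    obtain ⟨q, rfl⟩ : ∃ q, r = q + 1 := ⟨r - 1, by omega⟩
    rw [List.length_cons] at hr
    rw [List.take_succ_cons, List.drop_succ_cons] at h
    obtain ⟨v, hv⟩ : ∃ v, (wd t).drop q = true :: v := by
      cases hd : (wd t).drop q with
      | nil =>
        have := congrArg List.length hd
        rw [List.length_drop, List.length_nil] at this
        omega
      | cons a v =>
        rw [hd, List.cons_append, List.cons.injEq] at h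
        exact ⟨v, by rw [h.1]⟩
    rw [hv, List.cons_append, List.cons.injEq] at h
    have h1 := h.2
    have a2 := wd_take t q
    have b2 := wd_take t' v.length
    rw [← h1, List.take_left'] at b2
    swap
    · rfl
    have c1 := wd_counts t
    have e1 : (wd t).take q ++ (wd t).drop q = wd t := List.take_append_drop q (wd t)
    have d1 := congrArg (List.count true) e1
    have d2 := congrArg (List.count false) e1
    rw [List.count_append, hv, List.count_cons, c1.1] at d1
    rw [List.count_append, hv, List.count_cons, c1.2] at d2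
    simp at d1 d2
    omega

theorem cw_rotate {t t' : BinaryTree Unit} {r : ℕ} (hr : r < (cw t).length)
    (h : (cw t).rotate r = cw t') : r = 0 ∧ t = t' := by
  unfold cw at h hr
  rw [List.length_map] at hr
  rw [← List.map_rotate] at h
  have h1 : Function.Injective (List.map not) :=
    List.map_injective_iff.2 (fun a b hab => by cases a <;> cases b <;> simp_all)
  exact tw_rotate hr (h1 h)

theorem T_ex {k : ℕ} (t : X k) : ∃ x : X k × ZMod (2 * k + 1),
    io x.1 x.2 = st (2 * k + 1) (cw t.1) 0 := by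
  obtain ⟨u, r, h⟩ := io_surj (cw_card t 0)
  exact ⟨(u, r), h⟩

/-- `T` on words -/
noncomputable def TF {k : ℕ} (t : X k) : X k := (T_ex t).choose.1

/-- the voltage -/
noncomputable def Vo {k : ℕ} (t : X k) : ZMod (2 * k + 1) := (T_ex t).choose.2

theorem TF_spec {k : ℕ} (t : X k) (s : ZMod (2 * k + 1)) :
    io (TF t) (s + Vo t) = st (2 * k + 1) (cw t.1) s := by
  have h := (T_ex t).choose_spec
  have h1 : io (TF t) (Vo t) = st (2 * k + 1) (cw t.1) 0 := h
  rw [add_comm s (Vo t), io_shift, h1, ← st_shift, zero_add]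

theorem TF_inj {k : ℕ} : Function.Injective (TF : X k → X k) := by
  intro t t' h
  have h1 := TF_spec t (-Vo t)
  have h2 := TF_spec t' (-Vo t')
  rw [neg_add_cancel] at h1 h2
  rw [h, h2] at h1
  have h3 := rot_of_st (cw_len t') (cw_len t) h1
  exact (Subtype.ext (cw_rotate (by rw [cw_len t']; exact ZMod.val_lt _) h3).2).symm

/-- the permutation `T` of the Dyck words -/
noncomputable def TT {k : ℕ} : Equiv.Perm (X k) :=
  Equiv.ofBijective TF (Finite.injective_iff_bijective.1 TF_inj)

theorem TT_apply {k : ℕ} (t : X k) : TT t = TF t := rfl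

/-- the vertices are adjacent -/
theorem TT_disj {k : ℕ} (t : X k) (s : ZMod (2 * k + 1)) :
    Disjoint (io t s) (io (TT t) (s + Vo t)) := by
  rw [TT_apply, TF_spec, disjoint_left]
  intro j h1 h2
  unfold io at h1
  rw [mem_st] at h1 h2
  unfold cw at h2
  unfold sl at h1
  rw [List.getElem?_map] at h2
  cases hj : (j - s).val with
  | zero =>
    rw [hj] at h1
    simp at h1
  | succ i =>
    rw [hj] at h1 h2
    rw [List.getElem?_cons_succ] at h1 h2
    rw [h1] at h2
    simp at h2

/-! ### The voltage -/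

/-- sum of the positions of the up steps of a list, the first position is `a` -/
def psl : List Bool → ℕ → ℕ
  | [], _ => 0
  | b :: l, a => (if b then a else 0) + psl l (a + 1)

theorem psl_append (l l' : List Bool) : ∀ a : ℕ, psl (l ++ l') a = psl l a + psl l' (a + l.length) := by
  induction l with
  | nil => intro a; simp [psl]
  | cons b l ih =>
    intro a
    rw [List.cons_append, psl, psl, ih, List.length_cons]
    rw [show a + 1 + l.length = a + (l.length + 1) by omega]
    ring

theorem psl_add (l : List Bool) : ∀ a c : ℕ, psl l (a + c) = psl l a + c * l.count true := by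
  induction l with
  | nil => intro a c; simp [psl]
  | cons b l ih =>
    intro a c
    rw [psl, psl, show a + c + 1 = a + 1 + c by omega, ih, List.count_cons]
    cases b <;> simp <;> ring

theorem psl_wd (t : BinaryTree Unit) : psl (wd t) 1 = Ps t := by
  induction t with
  | nil => rfl
  | node _ A B ihA ihB =>
    rw [wd, psl, psl_append, psl, Ps]
    have h1 := psl_add (wd A) 1 1
    have h2 := psl_add (wd B) 1 (2 * A.numNodes + 2)
    rw [ihA, (wd_counts A).1] at h1
    rw [ihB, (wd_counts B).1] at h2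
    rw [wd_length]
    have e : 1 + 1 + 2 * A.numNodes + 1 = 1 + (2 * A.numNodes + 2) := by ring
    rw [e, h1, h2]
    simp
    ring

theorem psl_sum {n : ℕ} (l : List Bool) : ∀ a : ℕ,
    ∑ i ∈ range l.length, (if l[i]? = some true then ((a + i : ℕ) : ZMod n) else 0) =
      (psl l a : ZMod n) := by
  induction l with
  | nil => intro a; simp [psl]
  | cons b l ih =>
    intro a
    have h1 : (psl (b :: l) a : ZMod n) = (if b = true then (a : ZMod n) else 0) +
        (psl l (a + 1) : ZMod n) := by
      rw [psl, Nat.cast_add]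
      cases b <;> simp
    rw [List.length_cons, sum_range_succ', h1, ← ih (a + 1), add_comm]
    congr 1
    · cases b <;> simp
    · apply sum_congr rfl
      intro i _
      rw [List.getElem?_cons_succ, show a + (i + 1) = a + 1 + i by omega]

/-- first moment -/
theorem fm_st {n : ℕ} [NeZero n] (l : List Bool) (hl : l.length = n) :
    ∑ j ∈ st n l 0, j = (psl l 0 : ZMod n) := by
  rw [← psl_sum l 0, hl]
  unfold st
  rw [sum_filter]
  apply sum_nbij' (fun j : ZMod n => j.val) (fun i : ℕ => (i : ZMod n))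
  · intro j _
    exact mem_range.2 (ZMod.val_lt j)
  · intro i _
    exact mem_univ _
  · intro j _
    exact ZMod.natCast_zmod_val j
  · intro i hi
    rw [mem_range] at hi
    rw [ZMod.val_natCast, Nat.mod_eq_of_lt hi]
  · intro j _
    rw [sub_zero, zero_add, ZMod.natCast_zmod_val]

theorem fm_io {k : ℕ} (t : X k) (s : ZMod (2 * k + 1)) :
    ∑ j ∈ io t s, j = (Ps t.1 : ZMod (2 * k + 1)) + k * s := by
  have h1 : io t s = (io t 0).image (fun j => j + s) := by
    rw [← io_shift, zero_add]
  have h2 : ∑ j ∈ io t 0, j = (Ps t.1 : ZMod (2 * k + 1)) := by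
    unfold io
    rw [fm_st _ (sl_len t), sl, psl, psl_wd]
    simp
  rw [h1, sum_image (fun a _ b _ hab => add_right_cancel hab), sum_add_distrib, h2, sum_const,
    io_card, nsmul_eq_mul]

theorem two_k {k : ℕ} : (2 : ZMod (2 * k + 1)) * k = -1 := by
  have h : ((2 * k + 1 : ℕ) : ZMod (2 * k + 1)) = 0 := ZMod.natCast_self _
  push_cast at h
  exact eq_neg_of_add_eq_zero_left h

theorem sum_all {k : ℕ} : ∑ j : ZMod (2 * k + 1), j = 0 := by
  have h1 : ∑ j : ZMod (2 * k + 1), j = ∑ j : ZMod (2 * k + 1), -j :=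
    (Equiv.sum_comp (Equiv.neg (ZMod (2 * k + 1))) (fun j => j)).symm
  rw [sum_neg_distrib] at h1
  have h2 : (2 : ZMod (2 * k + 1)) * ∑ j : ZMod (2 * k + 1), j = 0 := by
    linear_combination h1
  have h3 : (k : ZMod (2 * k + 1)) * (2 * ∑ j : ZMod (2 * k + 1), j) = 0 := by rw [h2, mul_zero]
  have h4 : (k : ZMod (2 * k + 1)) * (2 * ∑ j : ZMod (2 * k + 1), j) =
      (2 * k) * ∑ j : ZMod (2 * k + 1), j := by ring
  rw [h4, two_k] at h3
  have h5 : ∑ j : ZMod (2 * k + 1), j = -(-1 * ∑ j : ZMod (2 * k + 1), j) := by ring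
  rw [h5, h3, neg_zero]

/-- the complement -/
theorem compl_cw {k : ℕ} (t : X k) (s : ZMod (2 * k + 1)) :
    insert s (st (2 * k + 1) (cw t.1) s) = univ \ io t s := by
  have hd : Disjoint (io t s) (st (2 * k + 1) (cw t.1) s) := by
    have := TT_disj t s
    rw [TT_apply, TF_spec] at this
    exact this
  have hs1 : s ∉ st (2 * k + 1) (cw t.1) s := by
    rw [mem_st, sub_self, ZMod.val_zero]
    unfold cw
    simp
  have hs2 : s ∉ io t s := by
    unfold io
    rw [mem_st, sub_self, ZMod.val_zero]
    unfold sl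
    simp
  apply eq_of_subset_of_card_le
  · intro j hj
    rw [mem_insert] at hj
    rw [mem_sdiff]
    refine ⟨mem_univ _, ?_⟩
    rcases hj with rfl | hj
    · exact hs2
    · exact disjoint_right.1 hd hj
  · rw [card_insert_of_notMem hs1, cw_card, card_sdiff_of_subset (subset_univ _), card_univ,
      ZMod.card, io_card]
    omega

theorem fm_cw {k : ℕ} (t : X k) :
    ∑ j ∈ st (2 * k + 1) (cw t.1) 0, j = -(Ps t.1 : ZMod (2 * k + 1)) := by
  have hs1 : (0 : ZMod (2 * k + 1)) ∉ st (2 * k + 1) (cw t.1) 0 := by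
    rw [mem_st, sub_self, ZMod.val_zero]
    unfold cw
    simp
  have h1 : ∑ j ∈ insert 0 (st (2 * k + 1) (cw t.1) 0), j =
      ∑ j ∈ st (2 * k + 1) (cw t.1) 0, j := by
    rw [sum_insert hs1, zero_add]
  have h2 : ∑ j ∈ univ \ io t 0, j + ∑ j ∈ io t 0, j = ∑ j : ZMod (2 * k + 1), j :=
    sum_sdiff (subset_univ _)
  rw [compl_cw] at h1
  rw [h1, fm_io, sum_all, mul_zero, add_zero] at h2
  exact eq_neg_of_add_eq_zero_left h2

/-- the voltage in terms of the positions -/
theorem Vo_eq {k : ℕ} (t : X k) :
    Vo t = 2 * ((Ps t.1 : ZMod (2 * k + 1)) + (Ps (TT t).1 : ZMod (2 * k + 1))) := by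
  have h1 := TF_spec t 0
  rw [zero_add] at h1
  have h2 := fm_io (TF t) (Vo t)
  rw [h1, fm_cw] at h2
  have h3 : (k : ZMod (2 * k + 1)) * Vo t =
      -((Ps t.1 : ZMod (2 * k + 1)) + (Ps (TT t).1 : ZMod (2 * k + 1))) := by
    rw [TT_apply]
    linear_combination -h2
  have h4 : Vo t = -(2 * (k * Vo t)) := by
    rw [← mul_assoc, two_k]
    ring
  rw [h4, h3]
  ring

/-- the total voltage -/
theorem sum_Vo (k : ℕ) : ∑ t : X k, Vo t = -(2 : ZMod (2 * k + 1)) ^ (2 * k + 1) := by
  have h1 : ∑ t : X k, Vo t = 2 * (∑ t : X k, (Ps t.1 : ZMod (2 * k + 1)) +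
      ∑ t : X k, (Ps (TT t).1 : ZMod (2 * k + 1))) := by
    rw [sum_congr rfl (fun t _ => Vo_eq t), ← mul_sum, sum_add_distrib]
  have h2 : ∑ t : X k, (Ps (TT t).1 : ZMod (2 * k + 1)) = ∑ t : X k, (Ps t.1 : ZMod (2 * k + 1)) :=
    Equiv.sum_comp TT (fun t : X k => (Ps t.1 : ZMod (2 * k + 1)))
  have h3 : ∑ t : X k, (Ps t.1 : ZMod (2 * k + 1)) =
      ((∑ t ∈ treesOfNumNodesEq k, Ps t : ℕ) : ZMod (2 * k + 1)) := by
    rw [Nat.cast_sum, ← sum_coe_sort (treesOfNumNodesEq k) (fun t => (Ps t : ZMod (2 * k + 1)))]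
  rw [h1, h2, h3, ← sum_Ps]
  push_cast
  ring

theorem unit_pow (k : ℕ) : IsUnit (-(2 : ZMod (2 * k + 1)) ^ (2 * k + 1)) := by
  apply IsUnit.neg
  apply IsUnit.pow
  have h := two_k (k := k)
  exact IsUnit.of_mul_eq_one (-(k : ZMod (2 * k + 1))) (by linear_combination -h)

end Pool.OddHC
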