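import Pool.Agent.Work.MP_8f87b2_base.Area

/-!
MP_8f87b2_co, base: Dyck words as lists of Bool, star first; the cycle lemma (uniqueness by heights, existence by counting).
-/

namespace Pool.OddHC

open Finset BinaryTree

/-- the word of a tree: `A △ B` is `1 A 0 B` -/
def wd : BinaryTree Unit → List Bool
  | .nil => []
  | .node _ A B => true :: (wd A ++ false :: wd B)

theorem wd_node (A B : BinaryTree Unit) : wd (A △ B) = true :: (wd A ++ false :: wd B) := rfl

theorem wd_counts (t : BinaryTree Unit) :
    (wd t).count true = t.numNodes ∧ (wd t).count false = t.numNodes := by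
  induction t with
  | nil => exact ⟨rfl, rfl⟩
  | node _ A B ihA ihB =>
    simp only [wd, BinaryTree.numNodes, List.count_cons, List.count_append, ihA.1, ihA.2, ihB.1,
      ihB.2]
    constructor
    · simp
    · simp; omega

theorem wd_length (t : BinaryTree Unit) : (wd t).length = 2 * t.numNodes := by
  induction t with
  | nil => rfl
  | node _ A B ihA ihB =>
    simp only [wd, BinaryTree.numNodes, List.length_cons, List.length_append, ihA, ihB]
    omega

theorem wd_take (t : BinaryTree Unit) : ∀ m : ℕ,
    ((wd t).take m).count false ≤ ((wd t).take m).count true := by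
  induction t with
  | nil => intro m; simp [wd]
  | node _ A B ihA ihB =>
    intro m
    rcases m with _ | m
    · simp
    · simp only [wd, List.take_succ_cons, List.take_append, List.count_cons, List.count_append]
      have h1 := ihA m
      rcases le_or_gt m (wd A).length with h | h
      · have h2 : m - (wd A).length = 0 := by omega
        rw [h2]
        simp
        omega
      · obtain ⟨d, hd⟩ : ∃ d, m - (wd A).length = d + 1 := ⟨m - (wd A).length - 1, by omega⟩
        rw [hd, List.take_succ_cons, List.count_cons, List.count_cons]
        have h2 := ihB d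
        simp
        omega

/-- a word is determined by its list -/
theorem wd_inj : ∀ t t' : BinaryTree Unit, ∀ l l' : List Bool,
    wd t ++ false :: l = wd t' ++ false :: l' → t = t' ∧ l = l' := by
  intro t
  induction t with
  | nil =>
    intro t' l l' h
    cases t' with
    | nil => simpa [wd] using h
    | node _ A B => simp [wd] at h
  | node _ A B ihA ihB =>
    intro t' l l' h
    cases t' with
    | nil => simp [wd] at h
    | node _ A' B' =>
      simp only [wd, List.cons_append, List.append_assoc, List.cons.injEq, true_and] at h
      obtain ⟨h1, h2⟩ := ihA A' _ _ h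
      obtain ⟨h3, h4⟩ := ihB B' _ _ h2
      exact ⟨by rw [h1, h3], h4⟩

/-- the cyclic word, star first -/
def sl (t : BinaryTree Unit) : List Bool := false :: wd t

theorem sl_length (t : BinaryTree Unit) : (sl t).length = 2 * t.numNodes + 1 := by
  unfold sl
  rw [List.length_cons, wd_length]

theorem sl_inj {t t' : BinaryTree Unit} (h : sl t = sl t') : t = t' := by
  unfold sl at h
  rw [List.cons.injEq] at h
  have h2 : wd t ++ false :: [] = wd t' ++ false :: [] := by rw [h.2]
  exact (wd_inj t t' [] [] h2).1

/-- CYCLE LEMMA, uniqueness -/
theorem sl_rotate {t t' : BinaryTree Unit} {r : ℕ} (hr : r < (sl t).length)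
    (h : (sl t).rotate r = sl t') : r = 0 ∧ t = t' := by
  rcases Nat.eq_zero_or_pos r with h0 | hp
  · subst h0
    rw [List.rotate_zero] at h
    exact ⟨rfl, sl_inj h⟩
  · exfalso
    rw [List.rotate_eq_drop_append_take hr.le] at h
    obtain ⟨q, rfl⟩ : ∃ q, r = q + 1 := ⟨r - 1, by omega⟩
    unfold sl at h hr
    rw [List.length_cons] at hr
    rw [List.take_succ_cons, List.drop_succ_cons] at h
    -- the rest starts with false
    obtain ⟨v, hv⟩ : ∃ v, (wd t).drop q = false :: v := by
      cases hd : (wd t).drop q with
      | nil =>
        have := congrArg List.length hd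
        rw [List.length_drop, List.length_nil] at this
        omega
      | cons a v =>
        rw [hd, List.cons_append, List.cons.injEq] at h
        exact ⟨v, by rw [h.1]⟩
    rw [hv, List.cons_append, List.cons.injEq] at h
    have h1 := h.2
    -- heights
    have a1 : ((wd t).take (q + 1)) = (wd t).take q ++ [false] := by
      have e1 : (wd t).take q ++ (wd t).drop q = wd t := List.take_append_drop q (wd t)
      have e2 : ((wd t).take q).length = q := by
        rw [List.length_take]; omega
      nth_rewrite 1 [← e1]
      rw [hv, List.take_append, e2]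
      simp
    have a2 := wd_take t (q + 1)
    rw [a1, List.count_append, List.count_append] at a2
    have b2 := wd_take t' (v.length + 1)
    rw [← h1, List.take_append] at b2
    have b3 : v.length + 1 - v.length = 1 := by omega
    rw [b3, List.take_of_length_le (by omega : v.length ≤ v.length + 1)] at b2
    have b4 : List.take 1 (false :: List.take q (wd t)) = [false] := rfl
    rw [b4, List.count_append, List.count_append] at b2
    have c1 := wd_counts t
    have e1 : (wd t).take q ++ (wd t).drop q = wd t := List.take_append_drop q (wd t)
    have d1 := congrArg (List.count true) e1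
    have d2 := congrArg (List.count false) e1
    rw [List.count_append, hv, List.count_cons, c1.1] at d1
    rw [List.count_append, hv, List.count_cons, c1.2] at d2
    simp at a2 b2 d1 d2
    omega

/-! ### Vertices of the odd graph -/

/-- the set of the positions of `true`, the list starts at `s` -/
def st (n : ℕ) [NeZero n] (l : List Bool) (s : ZMod n) : Finset (ZMod n) :=
  univ.filter (fun j => l[(j - s).val]? = some true)

theorem mem_st {n : ℕ} [NeZero n] {l : List Bool} {s j : ZMod n} :
    j ∈ st n l s ↔ l[(j - s).val]? = some true := by
  unfold st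
  simp

theorem st_rotate {n : ℕ} [NeZero n] (l : List Bool) (hl : l.length = n) (s : ZMod n) (r : ℕ) :
    st n (l.rotate r) (s + r) = st n l s := by
  ext j
  rw [mem_st, mem_st]
  have h1 : (j - (s + r)).val < l.length := by
    rw [hl]; exact ZMod.val_lt _
  rw [List.getElem?_rotate h1, hl]
  have h2 : ((j - (s + r)).val + r) % n = (j - s).val := by
    have e1 : (((j - (s + r)).val + r : ℕ) : ZMod n) = j - s := by
      rw [Nat.cast_add, ZMod.natCast_zmod_val]
      ring
    rw [← e1, ZMod.val_natCast]
  rw [h2]

theorem st_shift {n : ℕ} [NeZero n] (l : List Bool) (s c : ZMod n) :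
    st n l (s + c) = (st n l s).image (fun j => j + c) := by
  ext j
  rw [mem_st, mem_image]
  constructor
  · intro h
    refine ⟨j - c, ?_, by ring⟩
    rw [mem_st]
    have : j - c - s = j - (s + c) := by ring
    rw [this]
    exact h
  · rintro ⟨i, hi, rfl⟩
    rw [mem_st] at hi
    have : i + c - (s + c) = i - s := by ring
    rw [this]
    exact hi

theorem st_inj {n : ℕ} [NeZero n] {l l' : List Bool} (hl : l.length = n) (hl' : l'.length = n)
    {s : ZMod n} (h : st n l s = st n l' s) : l = l' := by
  apply List.ext_getElem?
  intro i
  rcases lt_or_ge i n with hi | hi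
  · have h1 : (i : ZMod n) + s ∈ st n l s ↔ (i : ZMod n) + s ∈ st n l' s := by rw [h]
    rw [mem_st, mem_st] at h1
    have h2 : ((i : ZMod n) + s - s).val = i := by
      rw [add_sub_cancel_right, ZMod.val_natCast, Nat.mod_eq_of_lt hi]
    rw [h2] at h1
    have h3 : ∃ b, l[i]? = some b := ⟨l[i]'(by omega), List.getElem?_eq_getElem (by omega)⟩
    have h4 : ∃ b, l'[i]? = some b := ⟨l'[i]'(by omega), List.getElem?_eq_getElem (by omega)⟩
    obtain ⟨b, hb⟩ := h3
    obtain ⟨b', hb'⟩ := h4
    rw [hb, hb'] at h1 ⊢
    cases b <;> cases b' <;> simp_all
  · rw [List.getElem?_eq_none (by omega), List.getElem?_eq_none (by omega)]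

theorem st_card {n : ℕ} [NeZero n] (l : List Bool) (hl : l.length = n) (s : ZMod n) :
    (st n l s).card = l.count true := by
  classical
  have h1 : (st n l s).card = ((range n).filter (fun i => l[i]? = some true)).card := by
    apply card_bij (fun j _ => (j - s).val)
    · intro j hj
      rw [mem_st] at hj
      rw [mem_filter, mem_range]
      exact ⟨ZMod.val_lt _, hj⟩
    · intro a _ b _ hab
      have := ZMod.val_injective n hab
      exact sub_left_injective this
    · intro i hi
      rw [mem_filter, mem_range] at hi
      refine ⟨(i : ZMod n) + s, ?_, ?_⟩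
      · rw [mem_st, add_sub_cancel_right, ZMod.val_natCast, Nat.mod_eq_of_lt hi.1]
        exact hi.2
      · rw [add_sub_cancel_right, ZMod.val_natCast, Nat.mod_eq_of_lt hi.1]
  rw [h1, ← hl]
  clear h1 hl
  induction l with
  | nil => simp
  | cons a l ih =>
    rw [List.length_cons, Finset.range_add_one', filter_insert, filter_map, List.count_cons]
    have h2 : ((range l.length).filter ((fun i => (a :: l)[i]? = some true) ∘
        (⟨fun i => i + 1, fun i j h => by simpa using h⟩ : ℕ ↪ ℕ))) =
        (range l.length).filter (fun i => l[i]? = some true) := by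
      apply filter_congr
      intro i _
      simp
    rw [h2]
    split_ifs with h3 h4 h4
    · rw [card_insert_of_notMem, card_map, ih]
      simp
    · simp at h3
      simp [h3] at h4
    · simp at h4
      simp [h4] at h3
    · rw [card_map, ih]
      rfl

end Pool.OddHC
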